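import Mathlib
import Pool.Agent.H713R5.QJ.TAF
import Pool.Agent.W349.CD.NU

/-!
# Two applications of the area formula for polynomials
-/

set_option autoImplicit false

open MeasureTheory Metric Set Polynomial

namespace Pool.Agent.U424.CC

open Pool.Agent.W751.CD (nu)

theorem card_le {P : ℂ[X]} (w : ℂ) : (P - C w).roots.toFinset.card ≤ P.natDegree := by
  refine (Multiset.toFinset_card_le _).trans ((card_roots' _).trans ?_)
  exact natDegree_sub_C.le

/-- The area of `{m ≤ |P| ≤ M}` if the logarithmic derivative is at least `K` there. -/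
theorem shell_area {P : ℂ[X]} (hP : 0 < P.natDegree) {m M K : ℝ} (hm : 0 < m) (hmM : m ≤ M)
    (hK : 0 < K)
    (h : ∀ z, m ≤ ‖P.eval z‖ → ‖P.eval z‖ ≤ M → K * ‖P.eval z‖ ≤ ‖(derivative P).eval z‖) :
    volume {z : ℂ | m ≤ ‖P.eval z‖ ∧ ‖P.eval z‖ ≤ M} ≤
      ENNReal.ofReal (P.natDegree * (2 * Real.pi * Real.log (M / m)) / K ^ 2) := by
  set E : Set ℂ := {w : ℂ | m ≤ ‖w‖ ∧ ‖w‖ ≤ M} with hE
  have hEm : MeasurableSet E := W349.CD.meas_ann m M
  set g : ℂ → ENNReal := fun z => ENNReal.ofReal ((‖(derivative P).eval z‖ ^ 2)⁻¹) with hg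
  have hgm : Measurable g := by
    have h1 : Measurable fun z : ℂ => (derivative P).eval z := (derivative P).continuous.measurable
    fun_prop
  have h1 := Pool.Agent.H713R5.QJ.af_holds P g E hP hgm hEm
  have hS : (Pool.Agent.H713R5.QJ.ev P) ⁻¹' E = {z : ℂ | m ≤ ‖P.eval z‖ ∧ ‖P.eval z‖ ≤ M} := rfl
  have hSm : MeasurableSet ((Pool.Agent.H713R5.QJ.ev P) ⁻¹' E) :=
    (P.continuous.measurable) hEm
  have h2 : ∫⁻ z in (Pool.Agent.H713R5.QJ.ev P) ⁻¹' E,
      g z * ENNReal.ofReal (‖(derivative P).eval z‖ ^ 2) =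
      volume ((Pool.Agent.H713R5.QJ.ev P) ⁻¹' E) := by
    rw [← setLIntegral_one]
    apply setLIntegral_congr_fun hSm
    intro z hz
    have hz' : m ≤ ‖P.eval z‖ ∧ ‖P.eval z‖ ≤ M := hz
    have h3 := h z hz'.1 hz'.2
    have h4 : 0 < K * ‖P.eval z‖ := mul_pos hK (lt_of_lt_of_le hm hz'.1)
    have h5 : 0 < ‖(derivative P).eval z‖ := lt_of_lt_of_le h4 h3
    show g z * ENNReal.ofReal (‖(derivative P).eval z‖ ^ 2) = 1
    rw [hg]
    show ENNReal.ofReal ((‖(derivative P).eval z‖ ^ 2)⁻¹) *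
      ENNReal.ofReal (‖(derivative P).eval z‖ ^ 2) = 1
    rw [← ENNReal.ofReal_mul (by positivity), inv_mul_cancel₀ (by positivity), ENNReal.ofReal_one]
  rw [h2, hS] at h1
  rw [← h1]
  have h6 : ∀ w ∈ E, ∑ ζ ∈ (P - C w).roots.toFinset, g ζ ≤
      ENNReal.ofReal (P.natDegree / K ^ 2) * ENNReal.ofReal ((‖w‖ ^ 2)⁻¹) := by
    intro w hw
    have hw0 : 0 < ‖w‖ := lt_of_lt_of_le hm hw.1
    have h7 : ∀ ζ ∈ (P - C w).roots.toFinset, g ζ ≤ ENNReal.ofReal ((K ^ 2 * ‖w‖ ^ 2)⁻¹) := by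
      intro ζ hζ
      have h8 : P.eval ζ = w := (Pool.Agent.H713R5.QJ.af_mem hP w ζ).mp hζ
      have h9 := h ζ (by rw [h8]; exact hw.1) (by rw [h8]; exact hw.2)
      rw [h8] at h9
      apply ENNReal.ofReal_le_ofReal
      apply inv_anti₀ (by positivity)
      rw [← mul_pow]
      exact pow_le_pow_left₀ (by positivity) h9 2
    calc ∑ ζ ∈ (P - C w).roots.toFinset, g ζ
        ≤ ∑ _ζ ∈ (P - C w).roots.toFinset, ENNReal.ofReal ((K ^ 2 * ‖w‖ ^ 2)⁻¹) :=
          Finset.sum_le_sum h7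
      _ = ((P - C w).roots.toFinset.card : ENNReal) * ENNReal.ofReal ((K ^ 2 * ‖w‖ ^ 2)⁻¹) := by
          rw [Finset.sum_const, nsmul_eq_mul]
      _ ≤ (P.natDegree : ENNReal) * ENNReal.ofReal ((K ^ 2 * ‖w‖ ^ 2)⁻¹) := by
          gcongr
          exact card_le w
      _ = _ := by
          rw [← ENNReal.ofReal_natCast, ← ENNReal.ofReal_mul (by positivity),
            ← ENNReal.ofReal_mul (by positivity)]
          congr 1
          field_simp
  calc ∫⁻ w in E, ∑ ζ ∈ (P - C w).roots.toFinset, g ζ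
      ≤ ∫⁻ w in E, ENNReal.ofReal (P.natDegree / K ^ 2) * ENNReal.ofReal ((‖w‖ ^ 2)⁻¹) :=
        setLIntegral_mono' hEm h6
    _ = ENNReal.ofReal (P.natDegree / K ^ 2) * nu E := by
        rw [lintegral_const_mul' _ _ ENNReal.ofReal_ne_top, nu, withDensity_apply _ hEm]
    _ = ENNReal.ofReal (P.natDegree / K ^ 2) *
          ENNReal.ofReal (2 * Real.pi * Real.log (M / m)) := by
        rw [hE, W349.CD.nu_ann m M hm hmM]
    _ = _ := by
        rw [← ENNReal.ofReal_mul (by positivity)]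
        congr 1
        ring

/-- The area of the set where `|P| ≤ R` and `|P'| ≥ M`. -/
theorem exc_area {P : ℂ[X]} (hP : 0 < P.natDegree) {R M : ℝ} (hR : 0 ≤ R) (hM : 0 < M) :
    volume {z : ℂ | ‖P.eval z‖ ≤ R ∧ M ≤ ‖(derivative P).eval z‖} ≤
      ENNReal.ofReal (P.natDegree * (Real.pi * R ^ 2) / M ^ 2) := by
  set E : Set ℂ := closedBall 0 R with hE
  have hEm : MeasurableSet E := measurableSet_closedBall
  set A : Set ℂ := {z : ℂ | M ≤ ‖(derivative P).eval z‖} with hA
  have hAm : MeasurableSet A := by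
    apply IsClosed.measurableSet
    exact isClosed_le continuous_const (derivative P).continuous.norm
  set g : ℂ → ENNReal := A.indicator fun z => ENNReal.ofReal ((‖(derivative P).eval z‖ ^ 2)⁻¹)
    with hg
  have hgm : Measurable g := by
    apply Measurable.indicator _ hAm
    have h1 : Measurable fun z : ℂ => (derivative P).eval z := (derivative P).continuous.measurable
    fun_prop
  have h1 := Pool.Agent.H713R5.QJ.af_holds P g E hP hgm hEm
  have hSm : MeasurableSet ((Pool.Agent.H713R5.QJ.ev P) ⁻¹' E) :=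
    (P.continuous.measurable) hEm
  have h2 : ∫⁻ z in (Pool.Agent.H713R5.QJ.ev P) ⁻¹' E,
      g z * ENNReal.ofReal (‖(derivative P).eval z‖ ^ 2) =
      volume (A ∩ (Pool.Agent.H713R5.QJ.ev P) ⁻¹' E) := by
    rw [← setLIntegral_one, ← lintegral_indicator (hAm.inter hSm), ← lintegral_indicator hSm]
    apply lintegral_congr
    intro z
    by_cases hz : z ∈ (Pool.Agent.H713R5.QJ.ev P) ⁻¹' E
    · by_cases hzA : z ∈ A
      · rw [indicator_of_mem hz, indicator_of_mem (mem_inter hzA hz), hg, indicator_of_mem hzA]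
        have h5 : 0 < ‖(derivative P).eval z‖ := lt_of_lt_of_le hM hzA
        rw [← ENNReal.ofReal_mul (by positivity), inv_mul_cancel₀ (by positivity),
          ENNReal.ofReal_one]
      · rw [indicator_of_mem hz, indicator_of_notMem (fun hh => hzA hh.1), hg,
          indicator_of_notMem hzA, zero_mul]
    · rw [indicator_of_notMem hz, indicator_of_notMem (fun hh => hz hh.2)]
  have hS : {z : ℂ | ‖P.eval z‖ ≤ R ∧ M ≤ ‖(derivative P).eval z‖} =
      A ∩ (Pool.Agent.H713R5.QJ.ev P) ⁻¹' E := by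
    ext z
    rw [mem_inter_iff, and_comm]
    have h3 : z ∈ (Pool.Agent.H713R5.QJ.ev P) ⁻¹' E ↔ ‖P.eval z‖ ≤ R := by
      rw [mem_preimage, hE, mem_closedBall_zero_iff]
      rfl
    rw [h3]
    rfl
  rw [hS, ← h2, ← h1]
  have h6 : ∀ w ∈ E, ∑ ζ ∈ (P - C w).roots.toFinset, g ζ ≤
      ENNReal.ofReal (P.natDegree / M ^ 2) := by
    intro w _
    have h7 : ∀ ζ ∈ (P - C w).roots.toFinset, g ζ ≤ ENNReal.ofReal ((M ^ 2)⁻¹) := by
      intro ζ _
      by_cases hζ : ζ ∈ A
      · rw [hg, indicator_of_mem hζ]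
        apply ENNReal.ofReal_le_ofReal
        apply inv_anti₀ (by positivity)
        exact pow_le_pow_left₀ hM.le hζ 2
      · rw [hg, indicator_of_notMem hζ]
        exact zero_le
    calc ∑ ζ ∈ (P - C w).roots.toFinset, g ζ
        ≤ ∑ _ζ ∈ (P - C w).roots.toFinset, ENNReal.ofReal ((M ^ 2)⁻¹) := Finset.sum_le_sum h7
      _ = ((P - C w).roots.toFinset.card : ENNReal) * ENNReal.ofReal ((M ^ 2)⁻¹) := by
          rw [Finset.sum_const, nsmul_eq_mul]
      _ ≤ (P.natDegree : ENNReal) * ENNReal.ofReal ((M ^ 2)⁻¹) := by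
          gcongr
          exact card_le w
      _ = _ := by
          rw [← ENNReal.ofReal_natCast, ← ENNReal.ofReal_mul (by positivity)]
          congr 1
  calc ∫⁻ w in E, ∑ ζ ∈ (P - C w).roots.toFinset, g ζ
      ≤ ∫⁻ w in E, ENNReal.ofReal (P.natDegree / M ^ 2) := setLIntegral_mono' hEm h6
    _ = ENNReal.ofReal (P.natDegree / M ^ 2) * volume E := by
        rw [setLIntegral_const]
    _ = _ := by
        rw [hE, Complex.volume_closedBall, ← ENNReal.ofReal_pow hR]
        have h8 : (NNReal.pi : ENNReal) = ENNReal.ofReal Real.pi := by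
          rw [ENNReal.ofReal, Real.toNNReal_of_nonneg Real.pi_pos.le]
          rfl
        rw [h8, ← ENNReal.ofReal_mul (by positivity), ← ENNReal.ofReal_mul (by positivity)]
        congr 1
        ring

end Pool.Agent.U424.CC
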