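import Mathlib

/-!
# Products of distances to a cluster of points

Elementary estimates for `∏ ‖z - c i‖`, where the centroid of the points `c i` is zero and
`‖c i‖ ^ 2 + σ ≤ q ^ 2`, `σ` the mean of the `‖c j‖ ^ 2`.
-/

set_option autoImplicit false

open Finset

namespace Pool.Agent.U424.CC

/-- the product of the distances -/
noncomputable def Q {n : ℕ} (c : Fin n → ℂ) (z : ℂ) : ℝ := ∏ i, ‖z - c i‖

theorem Q_nonneg {n : ℕ} (c : Fin n → ℂ) (z : ℂ) : 0 ≤ Q c z :=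
  prod_nonneg fun _ _ => norm_nonneg _

/-- a product of nonnegative numbers of mean at most `l` is at most `l ^ n` -/
theorem prod_le_of_sum {n : ℕ} (x : Fin n → ℝ) (hx : ∀ i, 0 ≤ x i) {l : ℝ} (hl : 0 < l)
    (h : ∑ i, x i ≤ n * l) : ∏ i, x i ≤ l ^ n := by
  have h1 : ∏ i, (x i / l) ≤ ∏ i : Fin n, Real.exp (x i / l - 1) := by
    apply prod_le_prod
    · intro i _
      exact div_nonneg (hx i) hl.le
    · intro i _
      have := Real.add_one_le_exp (x i / l - 1)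
      linarith
  have h2 : ∏ i : Fin n, Real.exp (x i / l - 1) ≤ 1 := by
    rw [← Real.exp_sum, sum_sub_distrib, ← sum_div, Finset.sum_const, card_univ, Fintype.card_fin,
      nsmul_eq_mul, mul_one]
    apply Real.exp_le_one_iff.mpr
    rw [sub_nonpos, div_le_iff₀ hl]
    exact h
  have h3 : ∏ i, (x i / l) = (∏ i, x i) / l ^ n := by
    rw [prod_div_distrib, prod_const, card_univ, Fintype.card_fin]
  rw [h3] at h1
  have h4 : 0 < l ^ n := pow_pos hl n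
  have h5 := h1.trans h2
  rwa [div_le_one h4] at h5

/-- the parallel axis theorem -/
theorem sum_sq {n : ℕ} (c : Fin n → ℂ) (hc : ∑ i, c i = 0) (z : ℂ) :
    ∑ i, ‖z - c i‖ ^ 2 = n * ‖z‖ ^ 2 + ∑ i, ‖c i‖ ^ 2 := by
  have h1 : ∀ i, ‖z - c i‖ ^ 2 = ‖z‖ ^ 2 + ‖c i‖ ^ 2 - 2 * (z.re * (c i).re + z.im * (c i).im) := by
    intro i
    rw [Complex.sq_norm, Complex.sq_norm, Complex.sq_norm, Complex.normSq_apply,
      Complex.normSq_apply, Complex.normSq_apply, Complex.sub_re, Complex.sub_im]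
    ring
  have hre : ∑ i, (c i).re = 0 := by
    rw [← Complex.re_sum, hc, Complex.zero_re]
  have him : ∑ i, (c i).im = 0 := by
    rw [← Complex.im_sum, hc, Complex.zero_im]
  simp only [h1]
  rw [sum_sub_distrib, sum_add_distrib, Finset.sum_const, card_univ, Fintype.card_fin, nsmul_eq_mul,
    ← mul_sum, sum_add_distrib, ← mul_sum, ← mul_sum, hre, him]
  ring

/-- the upper bound by the mean square distance -/
theorem Q_le {n : ℕ} (c : Fin n → ℂ) (hc : ∑ i, c i = 0) {σ : ℝ}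
    (hσ : ∑ i, ‖c i‖ ^ 2 = n * σ) {z : ℂ} {p : ℝ} (hp : 0 < p) (h : ‖z‖ ^ 2 + σ ≤ p ^ 2) :
    Q c z ≤ p ^ n := by
  have h1 : ∏ i, ‖z - c i‖ ^ 2 ≤ (p ^ 2) ^ n := by
    apply prod_le_of_sum _ (fun i => sq_nonneg _) (by positivity)
    rw [sum_sq c hc, hσ]
    have : (0 : ℝ) ≤ n := Nat.cast_nonneg n
    nlinarith
  have h2 : (Q c z) ^ 2 ≤ (p ^ n) ^ 2 := by
    rw [Q, ← prod_pow, ← pow_mul, mul_comm n 2, pow_mul]
    exact h1
  exact le_of_sq_le_sq h2 (by positivity)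
where
  le_of_sq_le_sq {a b : ℝ} (h : a ^ 2 ≤ b ^ 2) (hb : 0 ≤ b) : a ≤ b :=
    abs_le_of_sq_le_sq' h hb |>.2

/-- moving outwards increases the distance to a point of the disc of radius `R₀` -/
theorem out_sq {z c : ℂ} {R₀ τ : ℝ} (hc : ‖c‖ ≤ R₀) (hτ : 0 ≤ τ) :
    ‖z - c‖ ^ 2 + 2 * τ * (‖z‖ * (‖z‖ - R₀)) ≤ ‖(1 + τ : ℝ) * z - c‖ ^ 2 := by
  have h1 : ‖((1 + τ : ℝ) : ℂ) * z - c‖ ^ 2 =
      ‖z - c‖ ^ 2 + 2 * τ * (‖z‖ ^ 2 - (z.re * c.re + z.im * c.im)) + τ ^ 2 * ‖z‖ ^ 2 := by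
    rw [Complex.sq_norm, Complex.sq_norm, Complex.sq_norm, Complex.normSq_apply,
      Complex.normSq_apply, Complex.normSq_apply, Complex.sub_re, Complex.sub_im, Complex.sub_re,
      Complex.sub_im, Complex.re_ofReal_mul, Complex.im_ofReal_mul]
    ring
  have h2 : z.re * c.re + z.im * c.im ≤ ‖z‖ * ‖c‖ := by
    have h3 : z.re * c.re + z.im * c.im = (z * (starRingEnd ℂ) c).re := by
      rw [Complex.mul_re, Complex.conj_re, Complex.conj_im]; ring
    rw [h3]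
    calc (z * (starRingEnd ℂ) c).re ≤ ‖z * (starRingEnd ℂ) c‖ := Complex.re_le_norm _
      _ = ‖z‖ * ‖c‖ := by rw [norm_mul, RCLike.norm_conj]
  have h4 : ‖z‖ * ‖c‖ ≤ ‖z‖ * R₀ := mul_le_mul_of_nonneg_left hc (norm_nonneg z)
  have h5 : τ * (z.re * c.re + z.im * c.im) ≤ τ * (‖z‖ * R₀) :=
    mul_le_mul_of_nonneg_left (h2.trans h4) hτ
  have h6 : 0 ≤ τ ^ 2 * ‖z‖ ^ 2 := by positivity
  have h7 : ((1 + τ : ℝ) : ℂ) * z - c = (1 + τ : ℝ) * z - c := rfl
  rw [h1]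
  nlinarith

/-- the product grows exponentially along rays -/
theorem Q_out {n : ℕ} (c : Fin n → ℂ) {R₀ η D τ : ℝ} (hc : ∀ i, ‖c i‖ ≤ R₀) (hη : 0 ≤ η)
    (hR₀ : 0 ≤ R₀) (hτ : 0 ≤ τ) (hD : 0 < D) {z : ℂ} (hz : R₀ + η ≤ ‖z‖)
    (hzD : ∀ i, ‖z - c i‖ ≤ D) :
    Q c z ^ 2 * (1 + 2 * τ * η ^ 2 / D ^ 2) ^ n ≤ Q c ((1 + τ : ℝ) * z) ^ 2 := by
  rw [Q, Q, ← prod_pow, ← prod_pow]
  have h0 : (1 + 2 * τ * η ^ 2 / D ^ 2) ^ n = ∏ _i : Fin n, (1 + 2 * τ * η ^ 2 / D ^ 2) := by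
    rw [prod_const, card_univ, Fintype.card_fin]
  rw [h0, ← prod_mul_distrib]
  apply prod_le_prod
  · intro i _
    positivity
  · intro i _
    have h1 := out_sq (z := z) (hc i) hτ
    refine le_trans ?_ h1
    have h2 : ‖z - c i‖ ^ 2 ≤ D ^ 2 := pow_le_pow_left₀ (norm_nonneg _) (hzD i) 2
    have h3 : ‖z - c i‖ ^ 2 * (2 * τ * η ^ 2 / D ^ 2) ≤ 2 * τ * η ^ 2 := by
      have h4 : ‖z - c i‖ ^ 2 * (2 * τ * η ^ 2 / D ^ 2) ≤ D ^ 2 * (2 * τ * η ^ 2 / D ^ 2) :=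
        mul_le_mul_of_nonneg_right h2 (by positivity)
      have h5 : D ^ 2 * (2 * τ * η ^ 2 / D ^ 2) = 2 * τ * η ^ 2 := by field_simp
      linarith
    have h4 : η ≤ ‖z‖ := by linarith
    have h5 : η ≤ ‖z‖ - R₀ := by linarith
    have h6 : η ^ 2 ≤ ‖z‖ * (‖z‖ - R₀) := by nlinarith
    have h7 : 2 * τ * η ^ 2 ≤ 2 * τ * (‖z‖ * (‖z‖ - R₀)) :=
      mul_le_mul_of_nonneg_left h6 (by positivity)
    nlinarith

/-- the product increases along rays outside of the disc -/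
theorem Q_mono {n : ℕ} (c : Fin n → ℂ) {R₀ τ : ℝ} (hc : ∀ i, ‖c i‖ ≤ R₀) (hτ : 0 ≤ τ)
    {z : ℂ} (hz : R₀ ≤ ‖z‖) : Q c z ≤ Q c ((1 + τ : ℝ) * z) := by
  apply prod_le_prod
  · intro i _
    exact norm_nonneg _
  · intro i _
    have h1 := out_sq (z := z) (hc i) hτ
    have h2 : 0 ≤ 2 * τ * (‖z‖ * (‖z‖ - R₀)) := by
      have : 0 ≤ ‖z‖ - R₀ := by linarith
      positivity
    exact abs_le_of_sq_le_sq' (by linarith) (norm_nonneg _) |>.2

/-- small changes of the argument -/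
theorem Q_near {n : ℕ} (hn : 1 ≤ n) (c : Fin n → ℂ) {h : ℝ} {z w : ℂ}
    (hz : ∀ i, h ≤ ‖z - c i‖) (hw : ‖w - z‖ ≤ h / (2 * n)) :
    Q c w ≤ 2 * Q c z ∧ Q c z ≤ 2 * Q c w := by
  have hn' : (0 : ℝ) < n := by exact_mod_cast hn
  have hdiv : ∀ i, ‖w - z‖ ≤ ‖z - c i‖ / (2 * n) := fun i =>
    hw.trans (div_le_div_of_nonneg_right (hz i) (by positivity))
  constructor
  · have h1 : Q c w ≤ ∏ i : Fin n, (‖z - c i‖ * (1 + 1 / (2 * n))) := by
      apply prod_le_prod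
      · intro i _
        exact norm_nonneg _
      · intro i _
        have h2 : ‖w - c i‖ ≤ ‖w - z‖ + ‖z - c i‖ := by
          calc ‖w - c i‖ = ‖(w - z) + (z - c i)‖ := by ring_nf
            _ ≤ _ := norm_add_le _ _
        have h3 := hdiv i
        have h4 : ‖z - c i‖ * (1 + 1 / (2 * n)) = ‖z - c i‖ + ‖z - c i‖ / (2 * n) := by ring
        rw [h4]
        linarith
    rw [prod_mul_distrib, prod_const, card_univ, Fintype.card_fin] at h1
    refine h1.trans ?_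
    have h5 : (1 + 1 / (2 * n) : ℝ) ^ n ≤ 2 := by
      have h6 : (1 + 1 / (2 * n) : ℝ) ≤ Real.exp (1 / (2 * n)) := by
        have := Real.add_one_le_exp (1 / (2 * n) : ℝ)
        linarith
      calc (1 + 1 / (2 * n) : ℝ) ^ n ≤ Real.exp (1 / (2 * n)) ^ n :=
            pow_le_pow_left₀ (by positivity) h6 n
        _ = Real.exp (1 / 2) := by
            rw [← Real.exp_nat_mul]
            congr 1
            field_simp
        _ ≤ 2 := by
            have h7 : Real.exp (1 / 2) ^ 2 ≤ 2 ^ 2 := by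
              rw [← Real.exp_nat_mul]
              have h8 := Real.exp_one_lt_d9
              norm_num
              linarith
            exact abs_le_of_sq_le_sq' h7 (by norm_num) |>.2
    calc (∏ i, ‖z - c i‖) * (1 + 1 / (2 * n)) ^ n ≤ (∏ i, ‖z - c i‖) * 2 :=
          mul_le_mul_of_nonneg_left h5 (Q_nonneg c z)
      _ = 2 * Q c z := by rw [Q]; ring
  · have h1 : ∏ i : Fin n, (‖z - c i‖ * (1 - 1 / (2 * n))) ≤ Q c w := by
      apply prod_le_prod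
      · intro i _
        apply mul_nonneg (norm_nonneg _)
        rw [sub_nonneg, div_le_one (by positivity)]
        have : (1 : ℝ) ≤ n := by exact_mod_cast hn
        linarith
      · intro i _
        have h2 : ‖z - c i‖ ≤ ‖w - z‖ + ‖w - c i‖ := by
          calc ‖z - c i‖ = ‖(w - c i) - (w - z)‖ := by ring_nf
            _ ≤ ‖w - c i‖ + ‖w - z‖ := norm_sub_le _ _
            _ = _ := by ring
        have h3 := hdiv i
        have h4 : ‖z - c i‖ * (1 - 1 / (2 * n)) = ‖z - c i‖ - ‖z - c i‖ / (2 * n) := by ring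
        rw [h4]
        linarith
    rw [prod_mul_distrib, prod_const, card_univ, Fintype.card_fin] at h1
    have h5 : (1 / 2 : ℝ) ≤ (1 - 1 / (2 * n)) ^ n := by
      have h6 : -2 ≤ (-(1 / (2 * n)) : ℝ) := by
        have : (1 / (2 * n) : ℝ) ≤ 1 := by
          rw [div_le_one (by positivity)]
          have : (1 : ℝ) ≤ n := by exact_mod_cast hn
          linarith
        linarith
      have h7 := one_add_mul_le_pow h6 n
      have h8 : (1 : ℝ) + n * -(1 / (2 * n)) = 1 / 2 := by field_simp; norm_num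
      rw [h8] at h7
      simpa [sub_eq_add_neg] using h7
    have h6 : Q c z * (1 / 2) ≤ Q c w := by
      refine le_trans ?_ h1
      rw [Q]
      exact mul_le_mul_of_nonneg_left h5 (Q_nonneg c z)
    linarith

/-- the logarithmic derivative outside of the disc -/
theorem logder {n : ℕ} (c : Fin n → ℂ) {R₀ η D : ℝ} (hc : ∀ i, ‖c i‖ ≤ R₀) (hη : 0 < η)
    (hR₀ : 0 ≤ R₀) (hD : 0 < D) {z : ℂ} (hz : R₀ + η ≤ ‖z‖) (hzD : ∀ i, ‖z - c i‖ ≤ D) :
    n * (η / D ^ 2) ≤ ‖∑ i, (z - c i)⁻¹‖ := by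
  have hz0 : 0 < ‖z‖ := by linarith
  have h1 : ∀ i, ‖z‖ * (η / D ^ 2) ≤ (z * (z - c i)⁻¹).re := by
    intro i
    have hne : z - c i ≠ 0 := by
      intro h
      have h2 : z = c i := sub_eq_zero.mp h
      have h3 := hc i
      rw [← h2] at h3
      linarith
    have hpos : 0 < ‖z - c i‖ := norm_pos_iff.mpr hne
    have h2 : (z * (z - c i)⁻¹).re = (z.re * (z.re - (c i).re) + z.im * (z.im - (c i).im)) /
        ‖z - c i‖ ^ 2 := by
      rw [Complex.mul_re, Complex.inv_re, Complex.inv_im, Complex.sq_norm, Complex.sub_re,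
        Complex.sub_im]
      ring
    have h3 : z.re * (c i).re + z.im * (c i).im ≤ ‖z‖ * ‖c i‖ := by
      have h3 : z.re * (c i).re + z.im * (c i).im = (z * (starRingEnd ℂ) (c i)).re := by
        rw [Complex.mul_re, Complex.conj_re, Complex.conj_im]; ring
      rw [h3]
      calc (z * (starRingEnd ℂ) (c i)).re ≤ ‖z * (starRingEnd ℂ) (c i)‖ := Complex.re_le_norm _
        _ = ‖z‖ * ‖c i‖ := by rw [norm_mul, RCLike.norm_conj]
    have h4 : ‖z‖ ^ 2 = z.re * z.re + z.im * z.im := by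
      rw [Complex.sq_norm, Complex.normSq_apply]
    have h5 : ‖z‖ * η ≤ z.re * (z.re - (c i).re) + z.im * (z.im - (c i).im) := by
      have h6 : ‖z‖ * ‖c i‖ ≤ ‖z‖ * R₀ := mul_le_mul_of_nonneg_left (hc i) hz0.le
      nlinarith
    rw [h2, mul_div_assoc']
    apply div_le_div₀ _ h5 (by positivity) (pow_le_pow_left₀ hpos.le (hzD i) 2)
    have : 0 ≤ ‖z‖ * η := by positivity
    linarith
  have h2 : (n : ℝ) * (‖z‖ * (η / D ^ 2)) ≤ (z * ∑ i, (z - c i)⁻¹).re := by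
    rw [mul_sum, Complex.re_sum]
    calc (n : ℝ) * (‖z‖ * (η / D ^ 2)) = ∑ _i : Fin n, ‖z‖ * (η / D ^ 2) := by
          rw [Finset.sum_const, card_univ, Fintype.card_fin, nsmul_eq_mul]
      _ ≤ _ := sum_le_sum fun i _ => h1 i
  have h3 : (z * ∑ i, (z - c i)⁻¹).re ≤ ‖z‖ * ‖∑ i, (z - c i)⁻¹‖ :=
    (Complex.re_le_norm _).trans (norm_mul _ _).le
  have h4 : ‖z‖ * (n * (η / D ^ 2)) ≤ ‖z‖ * ‖∑ i, (z - c i)⁻¹‖ := by linarith
  exact le_of_mul_le_mul_left h4 hz0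

end Pool.Agent.U424.CC
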