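import Mathlib
import Pool.Agent.N634.LF.Line
import Pool.Agent.U424.CC.Geo

/-!
# The dynamics of the translates of a polynomial with clustered critical points
-/

set_option autoImplicit false

open MeasureTheory Metric Set Polynomial Filter Topology

namespace Pool.Agent.U424.CC

/-- `T` is a monic polynomial of degree `n + 1` with critical points `c i`, normalized by
`T (0) = 0` and `∑ c i = 0`; the critical points lie in the disc of radius `R₀`, the mean of
`‖c i‖ ^ 2` is `σ`, and `R₀ ^ 2 + σ ≤ q ^ 2`. -/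
structure Cl (n : ℕ) (T : ℂ[X]) (c : Fin n → ℂ) (R₀ σ q : ℝ) : Prop where
  der : derivative T = C ((n : ℂ) + 1) * ∏ i, (X - C (c i))
  zero : T.eval 0 = 0
  cen : ∑ i, c i = 0
  sig : ∑ i, ‖c i‖ ^ 2 = n * σ
  le : ∀ i, ‖c i‖ ≤ R₀
  R0 : 0 ≤ R₀
  sq : R₀ ^ 2 + σ ≤ q ^ 2
  q0 : 0 < q
  q1 : q < 1

/-- the margin -/
noncomputable def et (q : ℝ) : ℝ := (1 - q ^ 2) / 6

/-- the rate -/
noncomputable def pp (q : ℝ) : ℝ := Real.sqrt ((1 + q ^ 2) / 2)

theorem et_pos {q : ℝ} (h0 : 0 < q) (h1 : q < 1) : 0 < et q := by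
  unfold et
  nlinarith

theorem et_le {q : ℝ} (h0 : 0 < q) : et q ≤ 1 / 6 := by
  unfold et
  nlinarith [h0]

theorem pp_sq {q : ℝ} : pp q ^ 2 = (1 + q ^ 2) / 2 := by
  unfold pp
  rw [Real.sq_sqrt]
  positivity

theorem pp_pos {q : ℝ} : 0 < pp q := by
  unfold pp
  apply Real.sqrt_pos.mpr
  positivity

theorem pp_lt {q : ℝ} (h0 : 0 < q) (h1 : q < 1) : pp q < 1 := by
  have h2 : pp q ^ 2 < 1 ^ 2 := by rw [pp_sq]; nlinarith
  exact lt_of_pow_lt_pow_left₀ 2 zero_le_one h2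

/-- `n` is large in terms of `q`. -/
structure Lg (n : ℕ) (q : ℝ) : Prop where
  one : 10 ≤ n
  ex : 100 * ((n : ℝ) + 1) ^ 3 * pp q ^ n ≤ et q
  two : ((n : ℝ) + 1) ^ 11 ≤ 2 ^ n
  lin : 200 ≤ et q * ((n : ℝ) + 1)
  lo : 56 * Real.log ((n : ℝ) + 1) ≤ n

section

variable {n : ℕ} {T : ℂ[X]} {c : Fin n → ℂ} {R₀ σ q : ℝ}

theorem Cl.sigma_nonneg (h : Cl n T c R₀ σ q) (hn : 1 ≤ n) : 0 ≤ σ := by
  have h1 : 0 ≤ (n : ℝ) * σ := by
    rw [← h.sig]
    exact Finset.sum_nonneg fun i _ => sq_nonneg _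
  have h2 : (0 : ℝ) < n := by exact_mod_cast hn
  exact nonneg_of_mul_nonneg_right h1 h2

theorem Cl.R0_le (h : Cl n T c R₀ σ q) (hn : 1 ≤ n) : R₀ ≤ q := by
  have h1 := h.sigma_nonneg hn
  have h2 := h.sq
  exact abs_le_of_sq_le_sq' (by linarith) h.q0.le |>.2

theorem Cl.R0_lt (h : Cl n T c R₀ σ q) (hn : 1 ≤ n) : R₀ < 1 := (h.R0_le hn).trans_lt h.q1

theorem Cl.norm_der (h : Cl n T c R₀ σ q) (z : ℂ) :
    ‖(derivative T).eval z‖ = ((n : ℝ) + 1) * Q c z := by
  have h1 : ‖(n : ℂ) + 1‖ = (n : ℝ) + 1 := by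
    rw [← Nat.cast_succ, Complex.norm_natCast]
    push_cast
    ring
  rw [h.der, eval_mul, eval_C, eval_prod, norm_mul, norm_prod, h1, Q]
  simp

/-- the derivative is exponentially small on the disc of radius `R₀ + η` -/
theorem Cl.flat_in (h : Cl n T c R₀ σ q) (hn : 1 ≤ n) {z : ℂ} (hz : ‖z‖ ≤ R₀ + et q) :
    ‖(derivative T).eval z‖ ≤ ((n : ℝ) + 1) * pp q ^ n := by
  rw [h.norm_der]
  have h1 : Q c z ≤ pp q ^ n := by
    apply Q_le c h.cen h.sig pp_pos
    rw [pp_sq]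
    have h2 : ‖z‖ ^ 2 ≤ (R₀ + et q) ^ 2 := pow_le_pow_left₀ (norm_nonneg z) hz 2
    have h3 := h.R0_lt hn
    have h4 := et_pos h.q0 h.q1
    have h5 := et_le h.q0
    have h6 := h.sq
    have h7 : et q = (1 - q ^ 2) / 6 := rfl
    have h8 := h.R0
    nlinarith
  have h2 : (0 : ℝ) ≤ (n : ℝ) + 1 := by positivity
  exact mul_le_mul_of_nonneg_left h1 h2

theorem Lg.small (h : Lg n q) (h0 : 0 < q) (h1 : q < 1) :
    ((n : ℝ) + 1) * pp q ^ n ≤ et q / (100 * ((n : ℝ) + 1) ^ 2) ∧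
    ((n : ℝ) + 1) * pp q ^ n < (((n : ℝ) + 1) ^ 2)⁻¹ := by
  have h2 := h.ex
  have h3 : (0 : ℝ) < (n : ℝ) + 1 := by positivity
  have h4 : ((n : ℝ) + 1) * pp q ^ n ≤ et q / (100 * ((n : ℝ) + 1) ^ 2) := by
    rw [le_div_iff₀ (by positivity)]
    nlinarith
  refine ⟨h4, h4.trans_lt ?_⟩
  rw [div_lt_iff₀ (by positivity)]
  have h5 := et_le h0
  have h6 : (((n : ℝ) + 1) ^ 2)⁻¹ * (100 * ((n : ℝ) + 1) ^ 2) = 100 := by
    field_simp
  rw [h6]
  linarith

/-- outside of the flat region the modulus is large -/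
theorem Cl.out (h : Cl n T c R₀ σ q) (hl : Lg n q) {z : ℂ}
    (hz : (((n : ℝ) + 1) ^ 2)⁻¹ ≤ ‖(derivative T).eval z‖) : R₀ + et q ≤ ‖z‖ := by
  by_contra hcon
  push Not at hcon
  have h1 := h.flat_in (by have := hl.one; omega) hcon.le
  have h2 := (hl.small h.q0 h.q1).2
  linarith

/-- where the derivative is not huge the modulus is at most three -/
theorem Cl.le_three (h : Cl n T c R₀ σ q) (hl : Lg n q) {z : ℂ}
    (hz : ‖(derivative T).eval z‖ ≤ ((n : ℝ) + 1) ^ 11) : ‖z‖ ≤ 3 := by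
  by_contra hcon
  push Not at hcon
  have hn : 1 ≤ n := by have := hl.one; omega
  have h1 : (2 : ℝ) ^ n ≤ Q c z := by
    have h2 : (2 : ℝ) ^ n = ∏ _i : Fin n, (2 : ℝ) := by
      rw [Finset.prod_const, Finset.card_univ, Fintype.card_fin]
    rw [h2]
    apply Finset.prod_le_prod
    · intro i _
      norm_num
    · intro i _
      have h3 := h.le i
      have h4 := h.R0_lt hn
      have h5 := norm_sub_norm_le z (c i)
      linarith
  rw [h.norm_der] at hz
  have h2 := hl.two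
  have h3 : (0 : ℝ) < 2 ^ n := by positivity
  have h4 : (10 : ℝ) ≤ n := by exact_mod_cast hl.one
  nlinarith

theorem dist_le_four {z : ℂ} {i : Fin n} (h : Cl n T c R₀ σ q) (hn : 1 ≤ n) (hz : ‖z‖ ≤ 3) :
    ‖z - c i‖ ≤ 4 := by
  have h3 := h.le i
  have h4 := h.R0_lt hn
  have h5 := norm_sub_le z (c i)
  linarith

theorem deriv_eq (T : ℂ[X]) (z : ℂ) : deriv (fun z => T.eval z) z = (derivative T).eval z :=
  Polynomial.deriv _

/-- the mean value inequality -/
theorem mvt {T : ℂ[X]} {s : Set ℂ} (hs : Convex ℝ s) {B : ℝ}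
    (hB : ∀ z ∈ s, ‖(derivative T).eval z‖ ≤ B) {x y : ℂ} (hx : x ∈ s) (hy : y ∈ s) :
    ‖T.eval y - T.eval x‖ ≤ B * ‖y - x‖ := by
  have h1 := Convex.norm_image_sub_le_of_norm_deriv_le (f := fun z => T.eval z) (s := s) (C := B)
    (x := x) (y := y) (fun z _ => T.differentiableAt) (fun z hz => by
      rw [deriv_eq]; exact hB z hz) hs hx hy
  exact h1

theorem Cl.crit_val (h : Cl n T c R₀ σ q) (hn : 1 ≤ n) (i : Fin n) :
    ‖T.eval (c i)‖ ≤ ((n : ℝ) + 1) * pp q ^ n := by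
  have h1 := mvt (T := T) (convex_closedBall (0 : ℂ) R₀) (B := ((n : ℝ) + 1) * pp q ^ n)
    (fun z hz => h.flat_in hn (by
      rw [mem_closedBall_zero_iff] at hz
      have := et_pos h.q0 h.q1
      linarith)) (x := 0) (y := c i) (by simpa using h.R0) (by simpa using h.le i)
  rw [h.zero, sub_zero, sub_zero] at h1
  have h2 := h.le i
  have h3 := h.R0_lt hn
  have h4 : 0 ≤ ((n : ℝ) + 1) * pp q ^ n := by
    have := pp_pos (q := q)
    positivity
  nlinarith

/-- the value at a point of the flat region -/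
theorem Cl.flat_val (h : Cl n T c R₀ σ q) (hl : Lg n q) {a : ℂ}
    (ha : ‖(derivative T).eval a‖ ≤ (((n : ℝ) + 1) ^ 2)⁻¹) :
    ‖T.eval a‖ ≤ 3 * (((n : ℝ) + 1) ^ 2)⁻¹ := by
  have hn : 1 ≤ n := by have := hl.one; omega
  have hN : (1 : ℝ) ≤ (n : ℝ) + 1 := by
    have : (0 : ℝ) ≤ n := Nat.cast_nonneg n
    linarith
  have h3 : ‖a‖ ≤ 3 := by
    apply h.le_three hl
    refine ha.trans ?_
    have h4 : (((n : ℝ) + 1) ^ 2)⁻¹ ≤ 1 := inv_le_one_of_one_le₀ (one_le_pow₀ hN)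
    have h5 : (1 : ℝ) ≤ ((n : ℝ) + 1) ^ 11 := one_le_pow₀ hN
    linarith
  have h1 := mvt (T := T) (convex_segment (0 : ℂ) a) (B := (((n : ℝ) + 1) ^ 2)⁻¹)
    (fun z hz => ?_) (x := 0) (y := a) (left_mem_segment ℝ 0 a) (right_mem_segment ℝ 0 a)
  · rw [h.zero, sub_zero, sub_zero] at h1
    refine h1.trans ?_
    have h4 : 0 ≤ (((n : ℝ) + 1) ^ 2)⁻¹ := by positivity
    nlinarith
  · by_cases hz2 : ‖z‖ ≤ R₀ + et q
    · exact (h.flat_in hn hz2).trans (hl.small h.q0 h.q1).2.le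
    · push Not at hz2
      refine le_trans ?_ ha
      rw [h.norm_der, h.norm_der]
      rw [segment_eq_image] at hz
      obtain ⟨t, ht, rfl⟩ := hz
      have ht0 : 0 < t := by
        rcases ht.1.eq_or_lt with h5 | h5
        · exfalso
          rw [← h5] at hz2
          simp only [sub_zero, one_smul, zero_smul, add_zero, norm_zero] at hz2
          have := et_pos h.q0 h.q1
          have := h.R0
          linarith
        · exact h5
      have h5 : a = ((1 + (t⁻¹ - 1) : ℝ) : ℂ) * ((1 - t) • (0 : ℂ) + t • a) := by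
        rw [smul_zero, zero_add, Complex.real_smul, ← mul_assoc, ← Complex.ofReal_mul]
        have : (1 + (t⁻¹ - 1)) * t = 1 := by
          field_simp
          ring
        rw [this, Complex.ofReal_one, one_mul]
      have h6 : 0 ≤ t⁻¹ - 1 := by
        rw [sub_nonneg]
        exact (one_le_inv₀ ht0).mpr ht.2
      have h7 : Q c ((1 - t) • (0 : ℂ) + t • a) ≤ Q c a := by
        have h8 := Q_mono c (R₀ := R₀) (τ := t⁻¹ - 1) h.le h6
          (z := (1 - t) • (0 : ℂ) + t • a) (by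
            have := et_pos h.q0 h.q1
            linarith)
        rwa [← h5] at h8
      have h8 : (0 : ℝ) ≤ (n : ℝ) + 1 := by positivity
      exact mul_le_mul_of_nonneg_left h7 h8

/-- the radius of the trapping disc -/
noncomputable def rr (n : ℕ) (q : ℝ) : ℝ := et q / (4 * n)

theorem rr_pos (hn : 1 ≤ n) (h0 : 0 < q) (h1 : q < 1) : 0 < rr n q := by
  have h2 : (0 : ℝ) < n := by exact_mod_cast hn
  have := et_pos h0 h1
  unfold rr
  positivity

/-- the derivative is small in a disc around a point of the flat region -/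
theorem Cl.flat_disc (h : Cl n T c R₀ σ q) (hl : Lg n q) {a : ℂ}
    (ha : ‖(derivative T).eval a‖ ≤ (((n : ℝ) + 1) ^ 2)⁻¹) {w : ℂ} (hw : w ∈ ball a (rr n q)) :
    ‖(derivative T).eval w‖ ≤ 2 * (((n : ℝ) + 1) ^ 2)⁻¹ := by
  have hn : 1 ≤ n := by have := hl.one; omega
  have hn' : (1 : ℝ) ≤ n := by exact_mod_cast hn
  have he := et_pos h.q0 h.q1
  have hm : 0 < (((n : ℝ) + 1) ^ 2)⁻¹ := by positivity
  rw [mem_ball, dist_eq_norm] at hw
  have hr : rr n q ≤ et q / 4 := by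
    unfold rr
    apply div_le_div_of_nonneg_left he.le (by norm_num)
    linarith
  by_cases h1 : ‖a‖ ≤ R₀ + et q / 2
  · have h2 : ‖w‖ ≤ R₀ + et q := by
      have h3 : ‖w‖ ≤ ‖w - a‖ + ‖a‖ := by
        calc ‖w‖ = ‖(w - a) + a‖ := by ring_nf
          _ ≤ _ := norm_add_le _ _
      linarith
    have h3 := h.flat_in hn h2
    have h4 := (hl.small h.q0 h.q1).2
    linarith
  · push Not at h1
    have h2 : ∀ i, et q / 2 ≤ ‖a - c i‖ := by
      intro i
      have h3 := norm_sub_norm_le a (c i)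
      have h4 := h.le i
      linarith
    have h3 : ‖w - a‖ ≤ et q / 2 / (2 * n) := by
      refine hw.le.trans (le_of_eq ?_)
      unfold rr
      field_simp
      norm_num
    have h4 := (Q_near hn c h2 h3).1
    rw [h.norm_der] at ha ⊢
    have h5 : (0 : ℝ) ≤ (n : ℝ) + 1 := by positivity
    nlinarith

/-- the map `T + a` -/
noncomputable def Ph (T : ℂ[X]) (a : ℂ) : ℂ → ℂ := fun z => T.eval z + a

theorem Cl.trap (h : Cl n T c R₀ σ q) (hl : Lg n q) {a : ℂ}
    (ha : ‖(derivative T).eval a‖ ≤ (((n : ℝ) + 1) ^ 2)⁻¹) :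
    MapsTo (Ph T a) (ball a (rr n q)) (ball a (rr n q / 8)) := by
  intro w hw
  have hn : 1 ≤ n := by have := hl.one; omega
  have hn' : (10 : ℝ) ≤ n := by exact_mod_cast hl.one
  have he := et_pos h.q0 h.q1
  have hm : 0 < (((n : ℝ) + 1) ^ 2)⁻¹ := by positivity
  have h1 := mvt (T := T) (convex_ball a (rr n q)) (B := 2 * (((n : ℝ) + 1) ^ 2)⁻¹)
    (fun z hz => h.flat_disc hl ha hz) (mem_ball_self (rr_pos hn h.q0 h.q1)) hw
  have h2 := h.flat_val hl ha
  rw [mem_ball, dist_eq_norm] at hw ⊢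
  have h3 : ‖T.eval w‖ ≤ 5 * (((n : ℝ) + 1) ^ 2)⁻¹ := by
    have h4 : ‖T.eval w‖ ≤ ‖T.eval w - T.eval a‖ + ‖T.eval a‖ := by
      calc ‖T.eval w‖ = ‖(T.eval w - T.eval a) + T.eval a‖ := by ring_nf
        _ ≤ _ := norm_add_le _ _
    have h5 : rr n q ≤ 1 := by
      have h6 := et_le h.q0
      unfold rr
      rw [div_le_one (by linarith)]
      linarith
    nlinarith
  have h4 : Ph T a w - a = T.eval w := by
    unfold Ph
    ring
  rw [h4]
  refine h3.trans_lt ?_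
  unfold rr
  have h5 := hl.lin
  rw [← div_eq_mul_inv, div_lt_iff₀ (by positivity), div_div, div_mul_eq_mul_div,
    lt_div_iff₀ (by positivity)]
  nlinarith

/-- all critical points are attracted if `a` lies in the flat region -/
theorem Cl.flat_good (h : Cl n T c R₀ σ q) (hl : Lg n q) (hT : 2 ≤ T.natDegree) {a : ℂ}
    (ha : ‖(derivative T).eval a‖ ≤ (((n : ℝ) + 1) ^ 2)⁻¹) (i : Fin n) :
    Pool.Agent.H713R5.QJ.Good (Ph T a) (c i) := by
  have hn : 1 ≤ n := by have := hl.one; omega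
  have hn' : (10 : ℝ) ≤ n := by exact_mod_cast hl.one
  have he := et_pos h.q0 h.q1
  have hd : Differentiable ℂ (Ph T a) := T.differentiable.add_const a
  have hTa : 2 ≤ (T + C a).natDegree := by rw [natDegree_add_C]; exact hT
  obtain ⟨R2, hR2⟩ := Pool.Agent.H400R3.HI.two_bound hTa
  have hL := hR2 (max 1 R2) (le_max_right _ _)
  have hL' : ∀ w, max 1 R2 ≤ ‖w‖ → 2 * ‖w‖ ≤ ‖Ph T a w‖ := by
    intro w hw
    have h1 := hL w hw
    have h2 : Pool.Agent.H713R5.QJ.ev (T + C a) w = Ph T a w := by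
      show (T + C a).eval w = T.eval w + a
      rw [eval_add, eval_C]
    rwa [h2] at h1
  apply Pool.Agent.H400R3.HI.good_of_map hd
  refine Pool.Agent.H400R3.HI.attractor hd (B := {a}) (finite_singleton a)
    (r := rr n q) (R := max 1 R2) (rr_pos hn h.q0 h.q1)
    (lt_of_lt_of_le one_pos (le_max_left _ _)) hL' ?_ (mem_singleton a) ?_
  · intro b hb
    rw [mem_singleton_iff] at hb
    subst hb
    exact Or.inr ⟨b, mem_singleton b, h.trap hl ha⟩
  · rw [mem_ball, dist_eq_norm]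
    have h4 : Ph T a (c i) - a = T.eval (c i) := by
      unfold Ph
      ring
    rw [h4]
    refine (h.crit_val hn i).trans_lt ((hl.small h.q0 h.q1).1.trans_lt ?_)
    unfold rr
    apply div_lt_div_of_pos_left he (by positivity)
    nlinarith

end

end Pool.Agent.U424.CC
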