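import Mathlib
import Pool.Agent.U424.CC.Dyn

/-!
# Escape in the steep region
-/

set_option autoImplicit false

open MeasureTheory Metric Set Polynomial Filter Topology

namespace Pool.Agent.U424.CC

/-- a product of `z - c i` is close to a power of `z` -/
theorem prod_sub_pow {ι : Type*} (s : Finset ι) (c : ι → ℂ) {ρ : ℝ} (hρ : 0 ≤ ρ) {z : ℂ}
    (hz : ‖z‖ ≤ ρ) (hc : ∀ i ∈ s, ‖c i‖ ≤ 1) :
    ‖∏ i ∈ s, (z - c i) - z ^ s.card‖ ≤ (ρ + 1) ^ s.card - ρ ^ s.card := by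
  classical
  induction s using Finset.induction_on with
  | empty => simp
  | insert i s hi ih =>
    have h1 := ih fun j hj => hc j (Finset.mem_insert_of_mem hj)
    rw [Finset.prod_insert hi, Finset.card_insert_of_notMem hi]
    have h2 : ‖∏ j ∈ s, (z - c j)‖ ≤ (ρ + 1) ^ s.card := by
      rw [norm_prod, ← Finset.prod_const]
      apply Finset.prod_le_prod
      · intro j _
        exact norm_nonneg _
      · intro j hj
        have h3 := hc j (Finset.mem_insert_of_mem hj)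
        have h4 := norm_sub_le z (c j)
        linarith
    have h3 : (z - c i) * ∏ j ∈ s, (z - c j) - z ^ (s.card + 1) =
        z * (∏ j ∈ s, (z - c j) - z ^ s.card) - c i * ∏ j ∈ s, (z - c j) := by
      ring
    rw [h3]
    have h4 : ‖z * (∏ j ∈ s, (z - c j) - z ^ s.card)‖ ≤ ρ * ((ρ + 1) ^ s.card - ρ ^ s.card) := by
      rw [norm_mul]
      exact mul_le_mul hz h1 (norm_nonneg _) hρ
    have h5 : ‖c i * ∏ j ∈ s, (z - c j)‖ ≤ 1 * (ρ + 1) ^ s.card := by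
      rw [norm_mul]
      exact mul_le_mul (hc i (Finset.mem_insert_self i s)) h2 (norm_nonneg _) zero_le_one
    calc ‖z * (∏ j ∈ s, (z - c j) - z ^ s.card) - c i * ∏ j ∈ s, (z - c j)‖
        ≤ ‖z * (∏ j ∈ s, (z - c j) - z ^ s.card)‖ + ‖c i * ∏ j ∈ s, (z - c j)‖ := norm_sub_le _ _
      _ ≤ ρ * ((ρ + 1) ^ s.card - ρ ^ s.card) + 1 * (ρ + 1) ^ s.card := add_le_add h4 h5
      _ = _ := by ring

theorem exp_le_aux {x : ℝ} (h0 : 0 ≤ x) (h1 : x ≤ 1 / 2) : Real.exp x ≤ 1 + 2 * x := by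
  have h2 : 1 - x ≤ Real.exp (-x) := by
    have := Real.add_one_le_exp (-x)
    linarith
  have h3 : Real.exp x * Real.exp (-x) = 1 := by
    rw [← Real.exp_add]; simp
  have h4 := Real.exp_pos x
  have h5 : Real.exp x * (1 - x) ≤ 1 := by
    calc Real.exp x * (1 - x) ≤ Real.exp x * Real.exp (-x) :=
          mul_le_mul_of_nonneg_left h2 h4.le
      _ = 1 := h3
  nlinarith

section

variable {n : ℕ} {T : ℂ[X]} {c : Fin n → ℂ} {R₀ σ q : ℝ}

/-- the polynomial is comparable to a power far away -/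
theorem Cl.big (h : Cl n T c R₀ σ q) (hn : 1 ≤ n) {w : ℂ} (hw : 4 * ((n : ℝ) + 1) ^ 2 ≤ ‖w‖) :
    ‖w‖ ^ (n + 1) / 2 ≤ ‖T.eval w‖ := by
  have hn' : (1 : ℝ) ≤ n := by exact_mod_cast hn
  set ρ : ℝ := ‖w‖ with hρ
  have hρ0 : 0 < ρ := lt_of_lt_of_le (by positivity) hw
  have hB : ∀ z ∈ closedBall (0 : ℂ) ρ,
      ‖(derivative (T - X ^ (n + 1))).eval z‖ ≤ ((n : ℝ) + 1) * ((ρ + 1) ^ n - ρ ^ n) := by
    intro z hz
    rw [mem_closedBall_zero_iff] at hz
    have h1 := prod_sub_pow Finset.univ c hρ0.le hz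
      (fun i _ => (h.le i).trans (h.R0_lt hn).le)
    rw [Finset.card_univ, Fintype.card_fin] at h1
    have h2 : (derivative (T - X ^ (n + 1))).eval z =
        ((n : ℂ) + 1) * (∏ i, (z - c i) - z ^ n) := by
      rw [derivative_sub, h.der, derivative_X_pow, eval_sub, eval_mul, eval_C, eval_prod]
      simp
      ring
    have h3 : ‖(n : ℂ) + 1‖ = (n : ℝ) + 1 := by
      rw [← Nat.cast_succ, Complex.norm_natCast]
      push_cast
      ring
    rw [h2, norm_mul, h3]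
    exact mul_le_mul_of_nonneg_left h1 (by positivity)
  have h1 := mvt (T := T - X ^ (n + 1)) (convex_closedBall (0 : ℂ) ρ) hB
    (x := 0) (y := w) (by simpa using hρ0.le) (by simp [hρ])
  have h2 : (T - X ^ (n + 1)).eval 0 = 0 := by
    rw [eval_sub, h.zero, eval_pow, eval_X, zero_pow (by omega), sub_zero]
  rw [h2, sub_zero, sub_zero, eval_sub, eval_pow, eval_X, ← hρ] at h1
  -- the estimate of the difference of the powers
  have h3 : (ρ + 1) ^ n - ρ ^ n ≤ ρ ^ n * (1 / (2 * ((n : ℝ) + 1))) := by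
    have h4 : (ρ + 1) ^ n = ρ ^ n * (1 + 1 / ρ) ^ n := by
      rw [← mul_pow]
      congr 1
      field_simp
    have h5 : (1 + 1 / ρ) ^ n ≤ 1 + 1 / (2 * ((n : ℝ) + 1)) := by
      have h6 : 1 + 1 / ρ ≤ Real.exp (1 / ρ) := by
        have := Real.add_one_le_exp (1 / ρ)
        linarith
      have h7 : n * (1 / ρ) ≤ 1 / (4 * ((n : ℝ) + 1)) := by
        rw [mul_one_div, div_le_div_iff₀ hρ0 (by positivity)]
        nlinarith
      calc (1 + 1 / ρ) ^ n ≤ Real.exp (1 / ρ) ^ n := pow_le_pow_left₀ (by positivity) h6 n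
        _ = Real.exp (n * (1 / ρ)) := by rw [← Real.exp_nat_mul]
        _ ≤ Real.exp (1 / (4 * ((n : ℝ) + 1))) := Real.exp_le_exp.mpr h7
        _ ≤ 1 + 2 * (1 / (4 * ((n : ℝ) + 1))) := by
            apply exp_le_aux (by positivity)
            rw [div_le_div_iff₀ (by positivity) (by norm_num)]
            nlinarith
        _ = _ := by
            field_simp
            ring
    rw [h4]
    have h6 : 0 < ρ ^ n := pow_pos hρ0 n
    nlinarith
  have h4 : ((n : ℝ) + 1) * ((ρ + 1) ^ n - ρ ^ n) * ρ ≤ ρ ^ (n + 1) / 2 := by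
    calc ((n : ℝ) + 1) * ((ρ + 1) ^ n - ρ ^ n) * ρ
        ≤ ((n : ℝ) + 1) * (ρ ^ n * (1 / (2 * ((n : ℝ) + 1)))) * ρ := by gcongr
      _ = ρ ^ (n + 1) / 2 := by
          rw [pow_succ]
          field_simp
  have h5 : ‖w ^ (n + 1)‖ = ρ ^ (n + 1) := by rw [norm_pow, hρ]
  have h6 : ‖w ^ (n + 1)‖ ≤ ‖T.eval w‖ + ‖T.eval w - w ^ (n + 1)‖ := by
    calc ‖w ^ (n + 1)‖ = ‖T.eval w - (T.eval w - w ^ (n + 1))‖ := by ring_nf
      _ ≤ _ := norm_sub_le _ _
  linarith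

/-- points which are far away escape -/
theorem Cl.esc (h : Cl n T c R₀ σ q) (hn : 1 ≤ n) {a w : ℂ} (hw : 4 * ((n : ℝ) + 1) ^ 2 ≤ ‖w‖)
    (hw2 : ‖a‖ - 1 ≤ ‖w‖) : Tendsto (fun k : ℕ => ‖(Ph T a)^[k] w‖) atTop atTop := by
  have hn' : (1 : ℝ) ≤ n := by exact_mod_cast hn
  have hR : 0 < max (4 * ((n : ℝ) + 1) ^ 2) (‖a‖ - 1) :=
    lt_of_lt_of_le (by positivity) (le_max_left _ _)
  refine Pool.Agent.H400R3.HI.esc_of_large hR ?_ (max_le hw hw2)
  intro z hz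
  have h1 := (le_max_left _ _).trans hz
  have h2 := (le_max_right _ _).trans hz
  have h3 := h.big hn h1
  have h4 : (16 : ℝ) ≤ ‖z‖ := by nlinarith
  have h5 : ‖z‖ ^ 2 ≤ ‖z‖ ^ (n + 1) := pow_le_pow_right₀ (by linarith) (by omega)
  have h6 : ‖T.eval z‖ ≤ ‖Ph T a z‖ + ‖a‖ := by
    calc ‖T.eval z‖ = ‖(T.eval z + a) - a‖ := by ring_nf
      _ ≤ _ := norm_sub_le _ _
  nlinarith

/-- the exceptional parameters of the critical point `c i` -/
def exc (n : ℕ) (T : ℂ[X]) (v : ℂ) : Set ℂ :=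
  {a : ℂ | ‖T.eval (v + a) + a‖ ≤ 4 * ((n : ℝ) + 1) ^ 2 + 1 ∧
    ((n : ℝ) + 1) ^ 10 / 2 ≤ ‖(derivative T).eval (v + a)‖}

/-- the shell -/
def shell (n : ℕ) (T : ℂ[X]) : Set ℂ :=
  {a : ℂ | (((n : ℝ) + 1) ^ 2)⁻¹ ≤ ‖(derivative T).eval a‖ ∧
    ‖(derivative T).eval a‖ ≤ ((n : ℝ) + 1) ^ 10}

/-- all critical points escape if `a` lies in the steep region and is not exceptional -/
theorem Cl.steep (h : Cl n T c R₀ σ q) (hl : Lg n q) {a : ℂ}
    (ha : ((n : ℝ) + 1) ^ 10 ≤ ‖(derivative T).eval a‖) (i : Fin n)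
    (hi : a ∉ exc n T (T.eval (c i))) :
    Tendsto (fun k : ℕ => ‖(Ph T a)^[k] (c i)‖) atTop atTop := by
  have hn : 1 ≤ n := by have := hl.one; omega
  have hn' : (10 : ℝ) ≤ n := by exact_mod_cast hl.one
  have he := et_pos h.q0 h.q1
  have he1 := et_le h.q0
  have hcv := h.crit_val hn i
  have hsm := (hl.small h.q0 h.q1).1
  have hε : ‖T.eval (c i)‖ ≤ et q / (2 * n) := by
    refine hcv.trans (hsm.trans ?_)
    apply div_le_div_of_nonneg_left he.le (by positivity)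
    nlinarith
  have hε1 : ‖T.eval (c i)‖ ≤ 1 := by
    refine hε.trans ?_
    rw [div_le_one (by positivity)]
    linarith
  set v : ℂ := T.eval (c i) with hv
  have hΦ : Ph T a (c i) = v + a := rfl
  apply Pool.Agent.H400R3.HI.good_of_iter_esc (m := 1)
  rw [Function.iterate_one, hΦ]
  by_cases h1 : 4 * ((n : ℝ) + 1) ^ 2 + 1 ≤ ‖a‖
  · have h2 : ‖a‖ ≤ ‖v + a‖ + ‖v‖ := by
      calc ‖a‖ = ‖(v + a) - v‖ := by ring_nf
        _ ≤ _ := norm_sub_le _ _
    exact h.esc hn (by linarith) (by linarith)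
  · push Not at h1
    have hN : (1 : ℝ) ≤ (n : ℝ) + 1 := by linarith
    have h2 : R₀ + et q ≤ ‖a‖ := by
      apply h.out hl
      have h4 : (((n : ℝ) + 1) ^ 2)⁻¹ ≤ 1 := inv_le_one_of_one_le₀ (one_le_pow₀ hN)
      have h5 : (1 : ℝ) ≤ ((n : ℝ) + 1) ^ 10 := one_le_pow₀ hN
      linarith
    have h3 : ∀ j, et q ≤ ‖a - c j‖ := by
      intro j
      have h4 := norm_sub_norm_le a (c j)
      have h5 := h.le j
      linarith
    have h4 : ‖(v + a) - a‖ ≤ et q / (2 * n) := by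
      rw [add_sub_cancel_right]
      exact hε
    have h5 := (Q_near hn c h3 h4).2
    have h6 : ((n : ℝ) + 1) ^ 10 / 2 ≤ ‖(derivative T).eval (v + a)‖ := by
      rw [h.norm_der] at ha ⊢
      have h7 : (0 : ℝ) ≤ (n : ℝ) + 1 := by positivity
      nlinarith
    have h7 : 4 * ((n : ℝ) + 1) ^ 2 + 1 < ‖T.eval (v + a) + a‖ := by
      by_contra hcon
      push Not at hcon
      exact hi ⟨hcon, h6⟩
    apply Pool.Agent.H400R3.HI.good_of_iter_esc (m := 1)
    rw [Function.iterate_one]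
    have h8 : Ph T a (v + a) = T.eval (v + a) + a := rfl
    rw [h8]
    exact h.esc hn (by linarith) (by linarith)

/-- `a` is good -/
theorem Cl.good (h : Cl n T c R₀ σ q) (hl : Lg n q) (hT : 2 ≤ T.natDegree) {a : ℂ}
    (ha : a ∉ shell n T) (hi : ∀ i, a ∉ exc n T (T.eval (c i))) (i : Fin n) :
    Pool.Agent.H713R5.QJ.Good (Ph T a) (c i) := by
  by_cases h1 : ‖(derivative T).eval a‖ ≤ (((n : ℝ) + 1) ^ 2)⁻¹
  · exact h.flat_good hl hT h1 i
  · push Not at h1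
    by_cases h2 : ((n : ℝ) + 1) ^ 10 ≤ ‖(derivative T).eval a‖
    · exact Or.inl (h.steep hl h2 i (hi i))
    · push Not at h2
      exact absurd ⟨h1.le, h2.le⟩ ha

end

end Pool.Agent.U424.CC
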