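import Mathlib
import Pool.Agent.U424.CC.Esc
import Pool.Agent.U424.CC.Area

/-!
# The area of the bad parameters
-/

set_option autoImplicit false

open MeasureTheory Metric Set Polynomial Filter Topology

namespace Pool.Agent.U424.CC

section

variable {n : ℕ} {T : ℂ[X]} {c : Fin n → ℂ} {R₀ σ q : ℝ}

theorem eval_der_prod {ι : Type*} (s : Finset ι) (c : ι → ℂ) {z : ℂ} (hz : ∀ i ∈ s, z - c i ≠ 0) :
    (derivative (∏ i ∈ s, (X - C (c i)))).eval z =
      (∏ i ∈ s, (z - c i)) * ∑ i ∈ s, (z - c i)⁻¹ := by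
  classical
  induction s using Finset.induction_on with
  | empty => simp
  | insert i s hi ih =>
    have h1 := ih fun j hj => hz j (Finset.mem_insert_of_mem hj)
    rw [Finset.prod_insert hi, Finset.prod_insert hi, Finset.sum_insert hi, derivative_mul,
      eval_add, eval_mul, eval_mul, h1, derivative_X_sub_C, eval_one, one_mul, eval_sub, eval_X,
      eval_C, eval_prod]
    have h2 := hz i (Finset.mem_insert_self i s)
    simp only [eval_sub, eval_X, eval_C]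
    field_simp

theorem Cl.der2 (h : Cl n T c R₀ σ q) {z : ℂ} (hz : ∀ i, z - c i ≠ 0) :
    (derivative (derivative T)).eval z = (derivative T).eval z * ∑ i, (z - c i)⁻¹ := by
  rw [h.der, derivative_C_mul, eval_mul, eval_C, eval_der_prod _ _ (fun i _ => hz i), eval_mul,
    eval_C, eval_prod]
  simp only [eval_sub, eval_X, eval_C]
  ring

theorem Cl.deg' (h : Cl n T c R₀ σ q) : (derivative T).natDegree = n := by
  rw [h.der, natDegree_C_mul (by exact_mod_cast Nat.succ_ne_zero n),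
    natDegree_finsetProd_X_sub_C_eq_card, Finset.card_univ, Fintype.card_fin]

theorem Cl.deg (h : Cl n T c R₀ σ q) (hn : 1 ≤ n) : T.natDegree = n + 1 := by
  have h1 : 0 < T.natDegree := by
    by_contra hcon
    have h2 : T.natDegree = 0 := by omega
    have h3 := derivative_of_natDegree_zero h2
    have h4 := h.deg'
    rw [h3, natDegree_zero] at h4
    omega
  have h2 := natDegree_eq_of_degree_eq_some (degree_derivative_eq T h1)
  have h3 := h.deg'
  omega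

/-- the area of the shell -/
theorem Cl.shell_vol (h : Cl n T c R₀ σ q) (hl : Lg n q) :
    volume (shell n T) ≤
      ENNReal.ofReal (50000 / et q ^ 2 * (Real.log ((n : ℝ) + 1) / ((n : ℝ) + 1))) := by
  have hn : 1 ≤ n := by have := hl.one; omega
  have hn' : (10 : ℝ) ≤ n := by exact_mod_cast hl.one
  have he := et_pos h.q0 h.q1
  have hN : (1 : ℝ) ≤ (n : ℝ) + 1 := by linarith
  have hm : 0 < (((n : ℝ) + 1) ^ 2)⁻¹ := by positivity
  have hmM : (((n : ℝ) + 1) ^ 2)⁻¹ ≤ ((n : ℝ) + 1) ^ 10 := by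
    have h4 : (((n : ℝ) + 1) ^ 2)⁻¹ ≤ 1 := inv_le_one_of_one_le₀ (one_le_pow₀ hN)
    have h5 : (1 : ℝ) ≤ ((n : ℝ) + 1) ^ 10 := one_le_pow₀ hN
    linarith
  have hK : 0 < (n : ℝ) * (et q / 4 ^ 2) := by positivity
  have h1 := shell_area (P := derivative T) (by rw [h.deg']; omega) hm hmM hK (by
    intro z hz1 hz2
    have h2 := h.out hl hz1
    have h3 : ‖z‖ ≤ 3 := h.le_three hl (hz2.trans (pow_le_pow_right₀ hN (by norm_num)))
    have h4 := logder c h.le he h.R0 (D := 4) (by norm_num) h2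
      (fun i => dist_le_four h hn h3)
    have h5 : ∀ i, z - c i ≠ 0 := by
      intro i hi
      have h6 : z = c i := sub_eq_zero.mp hi
      have h7 := h.le i
      rw [← h6] at h7
      linarith
    rw [h.der2 h5, norm_mul, mul_comm]
    exact mul_le_mul_of_nonneg_left h4 (norm_nonneg _))
  refine h1.trans (ENNReal.ofReal_le_ofReal ?_)
  rw [h.deg']
  have h2 : Real.log (((n : ℝ) + 1) ^ 10 / (((n : ℝ) + 1) ^ 2)⁻¹) =
      12 * Real.log ((n : ℝ) + 1) := by
    rw [div_inv_eq_mul, ← pow_add, Real.log_pow]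
    norm_num
  rw [h2]
  have hL : 0 ≤ Real.log ((n : ℝ) + 1) := Real.log_nonneg hN
  have hpi := Real.pi_lt_four
  have h3 : (n : ℝ) * (2 * Real.pi * (12 * Real.log ((n : ℝ) + 1))) / (n * (et q / 4 ^ 2)) ^ 2 =
      6144 * Real.pi * Real.log ((n : ℝ) + 1) / (n * et q ^ 2) := by
    field_simp
    ring
  have h4 : 50000 / et q ^ 2 * (Real.log ((n : ℝ) + 1) / ((n : ℝ) + 1)) =
      50000 * Real.log ((n : ℝ) + 1) / (((n : ℝ) + 1) * et q ^ 2) := by
    field_simp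
  rw [h3, h4, div_le_div_iff₀ (by positivity) (by positivity)]
  have h5 : 0 ≤ Real.log ((n : ℝ) + 1) * et q ^ 2 := by positivity
  have h6 : 6144 * Real.pi * ((n : ℝ) + 1) ≤ 50000 * n := by nlinarith
  calc 6144 * Real.pi * Real.log ((n : ℝ) + 1) * (((n : ℝ) + 1) * et q ^ 2)
      = (6144 * Real.pi * ((n : ℝ) + 1)) * (Real.log ((n : ℝ) + 1) * et q ^ 2) := by ring
    _ ≤ (50000 * n) * (Real.log ((n : ℝ) + 1) * et q ^ 2) :=
        mul_le_mul_of_nonneg_right h6 h5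
    _ = _ := by ring

/-- the area of the exceptional sets -/
theorem Cl.exc_vol (h : Cl n T c R₀ σ q) (hl : Lg n q) (v : ℂ) :
    volume (exc n T v) ≤ ENNReal.ofReal ((((n : ℝ) + 1) ^ 11)⁻¹) := by
  have hn : 1 ≤ n := by have := hl.one; omega
  have hn' : (10 : ℝ) ≤ n := by exact_mod_cast hl.one
  have hN : (11 : ℝ) ≤ (n : ℝ) + 1 := by linarith
  have hdeg1 : (T.comp (X + C v)).natDegree = n + 1 := by
    rw [natDegree_comp, natDegree_X_add_C, h.deg hn, mul_one]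
  have hdeg : (T.comp (X + C v) + X).natDegree = n + 1 := by
    rw [natDegree_add_eq_left_of_natDegree_lt, hdeg1]
    rw [hdeg1, natDegree_X]
    omega
  have hev : ∀ a : ℂ, (T.comp (X + C v) + X).eval a = T.eval (v + a) + a := by
    intro a
    rw [eval_add, eval_comp, eval_add, eval_X, eval_C, add_comm a v]
  have hde : ∀ a : ℂ, (derivative (T.comp (X + C v) + X)).eval a =
      (derivative T).eval (v + a) + 1 := by
    intro a
    rw [derivative_add, derivative_comp, derivative_X, eval_add, eval_mul, eval_comp, eval_one,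
      derivative_X_add_C, eval_one, one_mul, eval_add, eval_X, eval_C, add_comm a v]
  have hM : (0 : ℝ) < ((n : ℝ) + 1) ^ 10 / 4 := by positivity
  have h1 := exc_area (P := T.comp (X + C v) + X) (by rw [hdeg]; omega)
    (R := 4 * ((n : ℝ) + 1) ^ 2 + 1) (by positivity) hM
  have hN10 : (4 : ℝ) ≤ ((n : ℝ) + 1) ^ 10 := by
    have h2 : ((n : ℝ) + 1) ^ 1 ≤ ((n : ℝ) + 1) ^ 10 :=
      pow_le_pow_right₀ (by linarith) (by norm_num)
    linarith
  have hsub : exc n T v ⊆ {z : ℂ | ‖(T.comp (X + C v) + X).eval z‖ ≤ 4 * ((n : ℝ) + 1) ^ 2 + 1 ∧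
      ((n : ℝ) + 1) ^ 10 / 4 ≤ ‖(derivative (T.comp (X + C v) + X)).eval z‖} := by
    rintro a ⟨ha1, ha2⟩
    refine ⟨by rw [hev]; exact ha1, ?_⟩
    rw [hde]
    have h2 : ‖(derivative T).eval (v + a)‖ ≤ ‖(derivative T).eval (v + a) + 1‖ + 1 := by
      calc ‖(derivative T).eval (v + a)‖ = ‖((derivative T).eval (v + a) + 1) - 1‖ := by ring_nf
        _ ≤ _ := norm_sub_le _ _
        _ = _ := by rw [norm_one]
    linarith
  refine (measure_mono hsub).trans (h1.trans (ENNReal.ofReal_le_ofReal ?_))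
  rw [hdeg]
  push_cast
  set N : ℝ := (n : ℝ) + 1 with hNdef
  have hpi := Real.pi_lt_four
  have h2 : (4 * N ^ 2 + 1) ^ 2 ≤ 25 * N ^ 4 := by
    have h3 : 4 * N ^ 2 + 1 ≤ 5 * N ^ 2 := by nlinarith
    calc (4 * N ^ 2 + 1) ^ 2 ≤ (5 * N ^ 2) ^ 2 := pow_le_pow_left₀ (by positivity) h3 2
      _ = _ := by ring
  have h3 : N * (Real.pi * (4 * N ^ 2 + 1) ^ 2) ≤ 100 * N ^ 5 := by
    calc N * (Real.pi * (4 * N ^ 2 + 1) ^ 2) ≤ N * (4 * (25 * N ^ 4)) := by gcongr
      _ = _ := by ring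
  rw [div_le_iff₀ (by positivity)]
  have h4 : (N ^ 11)⁻¹ * (N ^ 10 / 4) ^ 2 = N ^ 9 / 16 := by
    field_simp
    ring
  rw [h4]
  refine h3.trans ?_
  have h5 : (1600 : ℝ) ≤ N ^ 4 := by
    calc (1600 : ℝ) ≤ 11 ^ 4 := by norm_num
      _ ≤ N ^ 4 := pow_le_pow_left₀ (by norm_num) hN 4
  have h6 : N ^ 9 = N ^ 5 * N ^ 4 := by ring
  rw [h6]
  have h7 : 0 < N ^ 5 := by positivity
  nlinarith

/-- the union of the exceptional sets -/
theorem Cl.exc_all (h : Cl n T c R₀ σ q) (hl : Lg n q) :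
    volume (⋃ i, exc n T (T.eval (c i))) ≤ ENNReal.ofReal ((((n : ℝ) + 1) ^ 10)⁻¹) := by
  have hn' : (10 : ℝ) ≤ n := by exact_mod_cast hl.one
  calc volume (⋃ i, exc n T (T.eval (c i)))
      ≤ ∑ i, volume (exc n T (T.eval (c i))) := measure_iUnion_fintype_le _ _
    _ ≤ ∑ _i : Fin n, ENNReal.ofReal ((((n : ℝ) + 1) ^ 11)⁻¹) :=
        Finset.sum_le_sum fun i _ => h.exc_vol hl _
    _ = (n : ENNReal) * ENNReal.ofReal ((((n : ℝ) + 1) ^ 11)⁻¹) := by
        rw [Finset.sum_const, Finset.card_univ, Fintype.card_fin, nsmul_eq_mul]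
    _ = ENNReal.ofReal (n * (((n : ℝ) + 1) ^ 11)⁻¹) := by
        rw [← ENNReal.ofReal_natCast, ← ENNReal.ofReal_mul (by positivity)]
    _ ≤ _ := by
        apply ENNReal.ofReal_le_ofReal
        rw [← div_eq_mul_inv, div_le_iff₀ (by positivity)]
        have h1 : (((n : ℝ) + 1) ^ 10)⁻¹ * ((n : ℝ) + 1) ^ 11 = (n : ℝ) + 1 := by
          field_simp
        rw [h1]
        linarith

/-- the set of the bad parameters -/
def Bad (n : ℕ) (T : ℂ[X]) (c : Fin n → ℂ) : Set ℂ :=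
  {a : ℂ | ¬ ∀ i, Pool.Agent.H713R5.QJ.Good (Ph T a) (c i)}

theorem Cl.bad_vol (h : Cl n T c R₀ σ q) (hl : Lg n q) :
    volume (Bad n T c) ≤
      ENNReal.ofReal (50001 / et q ^ 2 * (Real.log ((n : ℝ) + 1) / ((n : ℝ) + 1))) := by
  have hn : 1 ≤ n := by have := hl.one; omega
  have hn' : (10 : ℝ) ≤ n := by exact_mod_cast hl.one
  have he := et_pos h.q0 h.q1
  have he1 := et_le h.q0
  have hT : 2 ≤ T.natDegree := by rw [h.deg hn]; omega
  have hsub : Bad n T c ⊆ shell n T ∪ ⋃ i, exc n T (T.eval (c i)) := by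
    intro a ha
    by_contra hcon
    rw [mem_union, not_or, mem_iUnion, not_exists] at hcon
    exact ha fun i => h.good hl hT hcon.1 hcon.2 i
  refine (measure_mono hsub).trans ((measure_union_le _ _).trans ?_)
  refine (add_le_add (h.shell_vol hl) (h.exc_all hl)).trans ?_
  have hN : (1 : ℝ) ≤ (n : ℝ) + 1 := by linarith
  have hL : 1 ≤ Real.log ((n : ℝ) + 1) := by
    rw [Real.le_log_iff_exp_le (by linarith)]
    have := Real.exp_one_lt_d9
    linarith
  rw [← ENNReal.ofReal_add (by positivity) (by positivity)]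
  apply ENNReal.ofReal_le_ofReal
  have h1 : (((n : ℝ) + 1) ^ 10)⁻¹ ≤ 1 / et q ^ 2 * (Real.log ((n : ℝ) + 1) / ((n : ℝ) + 1)) := by
    have h2 : (((n : ℝ) + 1) ^ 10)⁻¹ ≤ ((n : ℝ) + 1)⁻¹ := by
      apply inv_anti₀ (by linarith)
      calc (n : ℝ) + 1 = ((n : ℝ) + 1) ^ 1 := by ring
        _ ≤ _ := pow_le_pow_right₀ hN (by norm_num)
    have h3 : ((n : ℝ) + 1)⁻¹ ≤ Real.log ((n : ℝ) + 1) / ((n : ℝ) + 1) := by
      rw [inv_eq_one_div]
      apply div_le_div_of_nonneg_right hL (by linarith)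
    have h4 : 1 ≤ 1 / et q ^ 2 := by
      rw [one_le_div (by positivity)]
      nlinarith
    have h5 : 0 ≤ Real.log ((n : ℝ) + 1) / ((n : ℝ) + 1) := by positivity
    nlinarith
  have h2 : 50001 / et q ^ 2 * (Real.log ((n : ℝ) + 1) / ((n : ℝ) + 1)) =
      50000 / et q ^ 2 * (Real.log ((n : ℝ) + 1) / ((n : ℝ) + 1)) +
        1 / et q ^ 2 * (Real.log ((n : ℝ) + 1) / ((n : ℝ) + 1)) := by ring
  linarith

/-- a good parameter near a very steep one -/
theorem Cl.near_steep (h : Cl n T c R₀ σ q) (hl : Lg n q) {a : ℂ}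
    (ha : 2 * ((n : ℝ) + 1) ^ 10 ≤ ‖(derivative T).eval a‖) :
    ∃ b ∈ ball a (et q / (2 * n)), ∀ i, Pool.Agent.H713R5.QJ.Good (Ph T b) (c i) := by
  have hn : 1 ≤ n := by have := hl.one; omega
  have hn' : (10 : ℝ) ≤ n := by exact_mod_cast hl.one
  have he := et_pos h.q0 h.q1
  have hN : (1 : ℝ) ≤ (n : ℝ) + 1 := by linarith
  have h2 : R₀ + et q ≤ ‖a‖ := by
    apply h.out hl
    have h4 : (((n : ℝ) + 1) ^ 2)⁻¹ ≤ 1 := inv_le_one_of_one_le₀ (one_le_pow₀ hN)
    have h5 : (1 : ℝ) ≤ ((n : ℝ) + 1) ^ 10 := one_le_pow₀ hN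
    linarith
  have h3 : ∀ j, et q ≤ ‖a - c j‖ := by
    intro j
    have h4 := norm_sub_norm_le a (c j)
    have h5 := h.le j
    linarith
  have hvol : volume (⋃ i, exc n T (T.eval (c i))) < volume (ball a (et q / (2 * n))) := by
    refine (h.exc_all hl).trans_lt ?_
    rw [Complex.volume_ball, ← ENNReal.ofReal_pow (by positivity)]
    have h8 : (NNReal.pi : ENNReal) = ENNReal.ofReal Real.pi := by
      rw [ENNReal.ofReal, Real.toNNReal_of_nonneg Real.pi_pos.le]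
      rfl
    rw [h8, ← ENNReal.ofReal_mul (by positivity)]
    apply (ENNReal.ofReal_lt_ofReal_iff (by positivity)).mpr
    have h5 : (((n : ℝ) + 1) ^ 2)⁻¹ ≤ et q / (2 * n) := by
      rw [inv_eq_one_div, div_le_div_iff₀ (by positivity) (by positivity)]
      have := hl.lin
      nlinarith
    have h6 : ((((n : ℝ) + 1) ^ 2)⁻¹) ^ 2 ≤ (et q / (2 * n)) ^ 2 :=
      pow_le_pow_left₀ (by positivity) h5 2
    have h7 : (((n : ℝ) + 1) ^ 10)⁻¹ ≤ ((((n : ℝ) + 1) ^ 2)⁻¹) ^ 2 := by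
      rw [← inv_pow, ← inv_pow, ← pow_mul]
      apply pow_le_pow_of_le_one (by positivity) (inv_le_one_of_one_le₀ hN) (by norm_num)
    have h9 : 0 < (et q / (2 * n)) ^ 2 := by positivity
    have h10 := Real.pi_gt_three
    nlinarith
  obtain ⟨b, hb, hb2⟩ : ∃ b ∈ ball a (et q / (2 * n)), b ∉ ⋃ i, exc n T (T.eval (c i)) := by
    by_contra hcon
    push Not at hcon
    exact absurd (measure_mono (μ := volume) (show ball a (et q / (2 * n)) ⊆
      ⋃ i, exc n T (T.eval (c i)) from hcon)) (not_le.mpr hvol)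
  rw [mem_iUnion, not_exists] at hb2
  refine ⟨b, hb, fun i => Or.inl (h.steep hl ?_ i (hb2 i))⟩
  rw [mem_ball, dist_eq_norm] at hb
  have h4 := (Q_near hn c h3 hb.le).2
  rw [h.norm_der] at ha ⊢
  have h7 : (0 : ℝ) ≤ (n : ℝ) + 1 := by positivity
  nlinarith

/-- good parameters are `C log n / n`-dense -/
theorem Cl.dense (h : Cl n T c R₀ σ q) (hl : Lg n q) (a : ℂ) :
    ∃ b, ‖b - a‖ ≤ 3000 / et q ^ 2 * (Real.log ((n : ℝ) + 1) / ((n : ℝ) + 1)) ∧
      ∀ i, Pool.Agent.H713R5.QJ.Good (Ph T b) (c i) := by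
  have hn : 1 ≤ n := by have := hl.one; omega
  have hn' : (10 : ℝ) ≤ n := by exact_mod_cast hl.one
  have he := et_pos h.q0 h.q1
  have he1 := et_le h.q0
  have hN : (1 : ℝ) ≤ (n : ℝ) + 1 := by linarith
  have hT : 2 ≤ T.natDegree := by rw [h.deg hn]; omega
  have hL : 1 ≤ Real.log ((n : ℝ) + 1) := by
    rw [Real.le_log_iff_exp_le (by linarith)]
    have := Real.exp_one_lt_d9
    linarith
  set L : ℝ := Real.log ((n : ℝ) + 1) with hLdef
  -- the size of the second step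
  have hstep : et q / (2 * n) ≤ 2 / et q ^ 2 * (L / ((n : ℝ) + 1)) := by
    have h1 : et q / (2 * n) ≤ 1 / ((n : ℝ) + 1) := by
      rw [div_le_div_iff₀ (by positivity) (by positivity)]
      nlinarith
    have h2 : 1 / ((n : ℝ) + 1) ≤ L / ((n : ℝ) + 1) :=
      div_le_div_of_nonneg_right hL (by linarith)
    have h4 : 1 ≤ 2 / et q ^ 2 := by
      rw [one_le_div (by positivity)]
      nlinarith
    have h5 : 0 ≤ L / ((n : ℝ) + 1) := by positivity
    nlinarith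
  by_cases h1 : ‖(derivative T).eval a‖ ≤ (((n : ℝ) + 1) ^ 2)⁻¹
  · refine ⟨a, ?_, fun i => h.flat_good hl hT h1 i⟩
    rw [sub_self, norm_zero]
    positivity
  push Not at h1
  by_cases h2 : 2 * ((n : ℝ) + 1) ^ 10 ≤ ‖(derivative T).eval a‖
  · obtain ⟨b, hb, hgood⟩ := h.near_steep hl h2
    refine ⟨b, ?_, hgood⟩
    rw [mem_ball, dist_eq_norm] at hb
    have h3 : 2 / et q ^ 2 * (L / ((n : ℝ) + 1)) ≤ 3000 / et q ^ 2 * (L / ((n : ℝ) + 1)) := by
      gcongr
      norm_num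
    linarith
  push Not at h2
  have hR := h.out hl h1.le
  have h3 : ‖a‖ ≤ 3 := by
    apply h.le_three hl
    have h4 : ((n : ℝ) + 1) ^ 11 = ((n : ℝ) + 1) * ((n : ℝ) + 1) ^ 10 := by ring
    rw [h4]
    have h5 : 0 < ((n : ℝ) + 1) ^ 10 := by positivity
    nlinarith
  set x : ℝ := 56 * L / n with hx
  have hx0 : 0 < x := by positivity
  have hx1 : x ≤ 1 := by
    rw [hx, div_le_one (by positivity)]
    exact hl.lo
  set τ : ℝ := 8 * x / et q ^ 2 with hτ
  have hτ0 : 0 ≤ τ := by positivity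
  have h4 := Q_out c h.le he.le h.R0 hτ0 (D := 4) (by norm_num) hR
    (fun i => dist_le_four h hn h3)
  have h5 : 2 * τ * et q ^ 2 / 4 ^ 2 = x := by
    rw [hτ]
    field_simp
    ring
  rw [h5] at h4
  have h6 : ((n : ℝ) + 1) ^ 28 ≤ (1 + x) ^ n := by
    have h7 : Real.exp (x / 2) ≤ 1 + x := by
      have := exp_le_aux (x := x / 2) (by positivity) (by linarith)
      linarith
    calc ((n : ℝ) + 1) ^ 28 = Real.exp (28 * L) := by
          rw [hLdef, mul_comm, Real.exp_mul, Real.exp_log (by linarith)]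
          norm_cast
      _ = Real.exp (x / 2) ^ n := by
          rw [← Real.exp_nat_mul]
          congr 1
          rw [hx]
          field_simp
          ring
      _ ≤ (1 + x) ^ n := pow_le_pow_left₀ (Real.exp_pos _).le h7 n
  set a₁ : ℂ := ((1 + τ : ℝ) : ℂ) * a with ha₁
  have h7 : Q c a * ((n : ℝ) + 1) ^ 14 ≤ Q c a₁ := by
    have h8 : (Q c a * ((n : ℝ) + 1) ^ 14) ^ 2 ≤ Q c a₁ ^ 2 := by
      refine le_trans ?_ h4
      rw [mul_pow, ← pow_mul]
      exact mul_le_mul_of_nonneg_left h6 (sq_nonneg _)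
    exact abs_le_of_sq_le_sq' h8 (Q_nonneg _ _) |>.2
  have h8 : 2 * ((n : ℝ) + 1) ^ 10 ≤ ‖(derivative T).eval a₁‖ := by
    rw [h.norm_der] at h1 ⊢
    have h9 : ((n : ℝ) + 1) ^ 12 ≤ ((n : ℝ) + 1) * Q c a₁ := by
      have h10 : (((n : ℝ) + 1) ^ 2)⁻¹ * ((n : ℝ) + 1) ^ 14 = ((n : ℝ) + 1) ^ 12 := by
        field_simp
      rw [← h10]
      calc (((n : ℝ) + 1) ^ 2)⁻¹ * ((n : ℝ) + 1) ^ 14
          ≤ (((n : ℝ) + 1) * Q c a) * ((n : ℝ) + 1) ^ 14 := by gcongr
        _ = ((n : ℝ) + 1) * (Q c a * ((n : ℝ) + 1) ^ 14) := by ring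
        _ ≤ _ := by gcongr
    have h10 : ((n : ℝ) + 1) ^ 12 = ((n : ℝ) + 1) ^ 2 * ((n : ℝ) + 1) ^ 10 := by ring
    have h11 : 0 < ((n : ℝ) + 1) ^ 10 := by positivity
    have h12 : 2 ≤ ((n : ℝ) + 1) ^ 2 := by nlinarith
    nlinarith
  obtain ⟨b, hb, hgood⟩ := h.near_steep hl h8
  refine ⟨b, ?_, hgood⟩
  rw [mem_ball, dist_eq_norm] at hb
  have h9 : ‖a₁ - a‖ ≤ 3 * τ := by
    have h10 : a₁ - a = (τ : ℂ) * a := by
      rw [ha₁]
      push_cast
      ring
    rw [h10, norm_mul, Complex.norm_real, Real.norm_eq_abs, abs_of_nonneg hτ0]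
    nlinarith
  have h10 : ‖b - a‖ ≤ ‖b - a₁‖ + ‖a₁ - a‖ := by
    calc ‖b - a‖ = ‖(b - a₁) + (a₁ - a)‖ := by ring_nf
      _ ≤ _ := norm_add_le _ _
  have h11 : 3 * τ ≤ 2998 / et q ^ 2 * (L / ((n : ℝ) + 1)) := by
    rw [hτ, hx]
    have h12 : 3 * (8 * (56 * L / n) / et q ^ 2) = 1344 * L / (n * et q ^ 2) := by
      field_simp
      ring
    have h13 : 2998 / et q ^ 2 * (L / ((n : ℝ) + 1)) = 2998 * L / (((n : ℝ) + 1) * et q ^ 2) := by
      field_simp
    rw [h12, h13, div_le_div_iff₀ (by positivity) (by positivity)]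
    have h14 : 0 < L * et q ^ 2 := by positivity
    have h15 : 1344 * ((n : ℝ) + 1) ≤ 2998 * n := by linarith
    calc 1344 * L * (((n : ℝ) + 1) * et q ^ 2) = (1344 * ((n : ℝ) + 1)) * (L * et q ^ 2) := by ring
      _ ≤ (2998 * n) * (L * et q ^ 2) := mul_le_mul_of_nonneg_right h15 h14.le
      _ = _ := by ring
  have h12 : 3000 / et q ^ 2 * (L / ((n : ℝ) + 1)) =
      2998 / et q ^ 2 * (L / ((n : ℝ) + 1)) + 2 / et q ^ 2 * (L / ((n : ℝ) + 1)) := by ring
  linarith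

end

end Pool.Agent.U424.CC
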