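import Mathlib
import Pool.Agent.U424.CC.Vol

/-!
# Translates of polynomials with clustered critical points: the main theorem
-/

set_option autoImplicit false

open MeasureTheory Metric Set Polynomial Filter Topology

namespace Pool.Agent.U424.CC

section

variable {n : ℕ} {T : ℂ[X]} {c : Fin n → ℂ} {R₀ σ q : ℝ}

/-- points which are far away escape (second version) -/
theorem Cl.esc' (h : Cl n T c R₀ σ q) (hn : 1 ≤ n) {a w : ℂ} (hw : 4 * ((n : ℝ) + 1) ^ 2 ≤ ‖w‖)
    (hw2 : ‖a‖ - ((n : ℝ) + 1) ≤ ‖w‖) : Tendsto (fun k : ℕ => ‖(Ph T a)^[k] w‖) atTop atTop := by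
  have hn' : (1 : ℝ) ≤ n := by exact_mod_cast hn
  have hR : 0 < max (4 * ((n : ℝ) + 1) ^ 2) (‖a‖ - ((n : ℝ) + 1)) :=
    lt_of_lt_of_le (by positivity) (le_max_left _ _)
  refine Pool.Agent.H400R3.HI.esc_of_large hR ?_ (max_le hw hw2)
  intro z hz
  have h1 := (le_max_left _ _).trans hz
  have h2 := (le_max_right _ _).trans hz
  have h3 := h.big hn h1
  have h4 : 16 ≤ ‖z‖ := by nlinarith
  have h4' : (n : ℝ) + 1 ≤ ‖z‖ := by nlinarith
  have h5 : ‖z‖ ^ 2 ≤ ‖z‖ ^ (n + 1) := pow_le_pow_right₀ (by linarith) (by omega)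
  have h6 : ‖T.eval z‖ ≤ ‖Ph T a z‖ + ‖a‖ := by
    calc ‖T.eval z‖ = ‖(T.eval z + a) - a‖ := by ring_nf
      _ ≤ _ := norm_sub_le _ _
  nlinarith

theorem Cl.far (h : Cl n T c R₀ σ q) (hn : 1 ≤ n) {a : ℂ} (ha : 5 * ((n : ℝ) + 1) ^ 2 ≤ ‖a‖)
    (i : Fin n) : Pool.Agent.H713R5.QJ.Good (Ph T a) (c i) := by
  have hn' : (1 : ℝ) ≤ n := by exact_mod_cast hn
  left
  apply Pool.Agent.H400R3.HI.good_of_iter_esc (m := 1)
  rw [Function.iterate_one]
  have h1 : Ph T a (c i) = T.eval (c i) + a := rfl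
  rw [h1]
  have h2 : ‖T.eval (c i)‖ ≤ (n : ℝ) + 1 := by
    refine (h.crit_val hn i).trans ?_
    have h3 : pp q ^ n ≤ 1 := pow_le_one₀ pp_pos.le (pp_lt h.q0 h.q1).le
    have h4 : (0 : ℝ) ≤ (n : ℝ) + 1 := by positivity
    nlinarith
  have h3 : ‖a‖ ≤ ‖T.eval (c i) + a‖ + ‖T.eval (c i)‖ := by
    calc ‖a‖ = ‖(T.eval (c i) + a) - T.eval (c i)‖ := by ring_nf
      _ ≤ _ := norm_sub_le _ _
  apply h.esc' hn
  · nlinarith
  · linarith

end

/-- large degrees are large in the sense of `Lg` -/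
theorem ev_lg {q : ℝ} (h0 : 0 < q) (h1 : q < 1) : ∀ᶠ n : ℕ in atTop, Lg n q := by
  have he := et_pos h0 h1
  have hp0 := pp_pos (q := q)
  have hp1 := pp_lt h0 h1
  -- the exponential condition
  have e1 : Tendsto (fun n : ℕ => (n : ℝ) ^ 3 * pp q ^ n) atTop (𝓝 0) :=
    tendsto_pow_const_mul_const_pow_of_lt_one 3 hp0.le hp1
  have e2 : ∀ᶠ n : ℕ in atTop, (n : ℝ) ^ 3 * pp q ^ n < et q / 800 :=
    e1.eventually_lt_const (by positivity)
  have e3 : Tendsto (fun n : ℕ => (n : ℝ) ^ 11 / 2 ^ n) atTop (𝓝 0) :=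
    tendsto_pow_const_div_const_pow_of_one_lt 11 (by norm_num)
  have e4 : ∀ᶠ n : ℕ in atTop, (n : ℝ) ^ 11 / 2 ^ n < 1 / 2 ^ 11 :=
    e3.eventually_lt_const (by positivity)
  have e5 : Tendsto (fun n : ℕ => et q * ((n : ℝ) + 1)) atTop atTop :=
    (tendsto_atTop_add_const_right _ _ tendsto_natCast_atTop_atTop).const_mul_atTop he
  have e6 : Tendsto (fun n : ℕ => Real.log (n : ℝ) / (n : ℝ)) atTop (𝓝 0) :=
    (Real.isLittleO_log_id_atTop.tendsto_div_nhds_zero).comp tendsto_natCast_atTop_atTop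
  have e7 : ∀ᶠ n : ℕ in atTop, Real.log (n : ℝ) / (n : ℝ) < 1 / 112 :=
    e6.eventually_lt_const (by positivity)
  filter_upwards [e2, e4, e5.eventually_ge_atTop 200, e7, eventually_ge_atTop 1000] with
    n h2 h4 h5 h7 hn
  have hn' : (1000 : ℝ) ≤ n := by exact_mod_cast hn
  refine ⟨by omega, ?_, ?_, h5, ?_⟩
  · have h8 : ((n : ℝ) + 1) ^ 3 ≤ (2 * n) ^ 3 :=
      pow_le_pow_left₀ (by positivity) (by linarith) 3
    have h9 : 0 < pp q ^ n := pow_pos hp0 n
    calc 100 * ((n : ℝ) + 1) ^ 3 * pp q ^ n ≤ 100 * (2 * n) ^ 3 * pp q ^ n := by gcongr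
      _ = 800 * ((n : ℝ) ^ 3 * pp q ^ n) := by ring
      _ ≤ et q := by linarith
  · have h8 : ((n : ℝ) + 1) ^ 11 ≤ (2 * n) ^ 11 :=
      pow_le_pow_left₀ (by positivity) (by linarith) 11
    rw [div_lt_div_iff₀ (by positivity) (by positivity)] at h4
    calc ((n : ℝ) + 1) ^ 11 ≤ (2 * n) ^ 11 := h8
      _ = (n : ℝ) ^ 11 * 2 ^ 11 := by ring
      _ ≤ 2 ^ n := by linarith
  · rw [div_lt_div_iff₀ (by positivity) (by positivity)] at h7
    have h8 : Real.log ((n : ℝ) + 1) ≤ Real.log n + 1 := by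
      have h9 : (n : ℝ) + 1 ≤ n * Real.exp 1 := by
        have := Real.exp_one_gt_d9
        nlinarith
      calc Real.log ((n : ℝ) + 1) ≤ Real.log (n * Real.exp 1) := Real.log_le_log (by positivity) h9
        _ = _ := by rw [Real.log_mul (by positivity) (Real.exp_pos 1).ne', Real.log_exp]
    linarith

/-- the bounds for all degrees, normalized polynomials -/
theorem norm_main {q : ℝ} (h0 : 0 < q) (h1 : q < 1) : ∃ K : ℝ, 0 < K ∧
    ∀ (n : ℕ) (T : ℂ[X]) (c : Fin n → ℂ) (R₀ σ : ℝ), 1 ≤ n → Cl n T c R₀ σ q →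
      volume (Bad n T c) ≤ ENNReal.ofReal (K * (Real.log ((n : ℝ) + 1) / ((n : ℝ) + 1))) ∧
      ∀ a : ℂ, ∃ b, ‖b - a‖ ≤ K * (Real.log ((n : ℝ) + 1) / ((n : ℝ) + 1)) ∧
        ∀ i, Pool.Agent.H713R5.QJ.Good (Ph T b) (c i) := by
  obtain ⟨n₀, hn₀⟩ := eventually_atTop.mp (ev_lg h0 h1)
  have he := et_pos h0 h1
  have hl2 : 0 < Real.log 2 := Real.log_pos (by norm_num)
  set m : ℝ := (n₀ : ℝ) + 2 with hm
  have hm0 : 2 ≤ m := by
    have : (0 : ℝ) ≤ n₀ := Nat.cast_nonneg n₀
    linarith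
  set K₁ : ℝ := 100 * m ^ 5 / Real.log 2 with hK₁
  have hK₁0 : 0 < K₁ := by positivity
  refine ⟨50001 / et q ^ 2 + K₁, by positivity, ?_⟩
  intro n T c R₀ σ hn h
  have hn' : (1 : ℝ) ≤ n := by exact_mod_cast hn
  have hL0 : 0 ≤ Real.log ((n : ℝ) + 1) / ((n : ℝ) + 1) := by
    have : 0 ≤ Real.log ((n : ℝ) + 1) := Real.log_nonneg (by linarith)
    positivity
  have hmon : ∀ A : ℝ, A ≤ 50001 / et q ^ 2 + K₁ →
      A * (Real.log ((n : ℝ) + 1) / ((n : ℝ) + 1)) ≤
        (50001 / et q ^ 2 + K₁) * (Real.log ((n : ℝ) + 1) / ((n : ℝ) + 1)) :=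
    fun A hA => mul_le_mul_of_nonneg_right hA hL0
  by_cases hnn : n₀ ≤ n
  · have hl := hn₀ n hnn
    constructor
    · refine (h.bad_vol hl).trans (ENNReal.ofReal_le_ofReal (hmon _ ?_))
      linarith
    · intro a
      obtain ⟨b, hb1, hb2⟩ := h.dense hl a
      refine ⟨b, hb1.trans (hmon _ ?_), hb2⟩
      have h3 : 3000 / et q ^ 2 ≤ 50001 / et q ^ 2 := by
        gcongr
        norm_num
      linarith
  · push Not at hnn
    have hnm : (n : ℝ) + 1 ≤ m := by
      have : (n : ℝ) ≤ n₀ := by exact_mod_cast hnn.le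
      linarith
    have hN0 : (0 : ℝ) < (n : ℝ) + 1 := by positivity
    have hlog : Real.log 2 / m ≤ Real.log ((n : ℝ) + 1) / ((n : ℝ) + 1) := by
      apply div_le_div₀ (Real.log_nonneg (by linarith)) _ hN0 hnm
      exact Real.log_le_log (by norm_num) (by linarith)
    have hK : 100 * m ^ 4 ≤ (50001 / et q ^ 2 + K₁) *
        (Real.log ((n : ℝ) + 1) / ((n : ℝ) + 1)) := by
      have h3 : 100 * m ^ 4 = K₁ * (Real.log 2 / m) := by
        rw [hK₁]
        field_simp
      rw [h3]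
      apply mul_le_mul _ hlog (by positivity) (by positivity)
      have : 0 < 50001 / et q ^ 2 := by positivity
      linarith
    have hsq : 5 * ((n : ℝ) + 1) ^ 2 ≤ 5 * m ^ 2 := by gcongr
    constructor
    · have hsub : Bad n T c ⊆ closedBall 0 (5 * m ^ 2) := by
        intro a ha
        rw [mem_closedBall_zero_iff]
        by_contra hcon
        push Not at hcon
        exact ha fun i => h.far hn (by linarith) i
      refine (measure_mono hsub).trans ?_
      rw [Complex.volume_closedBall, ← ENNReal.ofReal_pow (by positivity)]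
      have h8 : (NNReal.pi : ENNReal) = ENNReal.ofReal Real.pi := by
        rw [ENNReal.ofReal, Real.toNNReal_of_nonneg Real.pi_pos.le]
        rfl
      rw [h8, ← ENNReal.ofReal_mul (by positivity)]
      apply ENNReal.ofReal_le_ofReal
      refine le_trans ?_ hK
      have h9 := Real.pi_lt_four
      calc (5 * m ^ 2) ^ 2 * Real.pi ≤ (5 * m ^ 2) ^ 2 * 4 := by gcongr
        _ = 100 * m ^ 4 := by ring
    · intro a
      by_cases ha : 5 * m ^ 2 ≤ ‖a‖
      · refine ⟨a, ?_, fun i => h.far hn (by linarith) i⟩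
        rw [sub_self, norm_zero]
        positivity
      · push Not at ha
        refine ⟨((5 * m ^ 2 : ℝ) : ℂ), ?_, fun i => h.far hn ?_ i⟩
        · refine le_trans ?_ hK
          have h9 : ‖((5 * m ^ 2 : ℝ) : ℂ)‖ = 5 * m ^ 2 := by
            rw [Complex.norm_real, Real.norm_eq_abs, abs_of_nonneg (by positivity)]
          have h10 := norm_sub_le ((5 * m ^ 2 : ℝ) : ℂ) a
          rw [h9] at h10
          have h11 : 10 * m ^ 2 ≤ 100 * m ^ 4 := by
            have h12 : 1 ≤ m ^ 2 := by nlinarith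
            have h13 : m ^ 4 = m ^ 2 * m ^ 2 := by ring
            nlinarith
          linarith
        · rw [Complex.norm_real, Real.norm_eq_abs, abs_of_nonneg (by positivity)]
          exact hsq

/-! ### Removing the normalization -/

/-- the normalized polynomial -/
noncomputable def nrm (T : ℂ[X]) (b : ℂ) : ℂ[X] := T.comp (X + C b) - C (T.eval b)

theorem conj_iter (T : ℂ[X]) (b a : ℂ) (k : ℕ) (z : ℂ) :
    (Pool.Agent.N634.LF.map (T + C a))^[k] (z + b) =
      (Ph (nrm T b) (a + T.eval b - b))^[k] z + b := by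
  induction k with
  | zero => rfl
  | succ k ih =>
    rw [Function.iterate_succ_apply', Function.iterate_succ_apply', ih]
    simp only [Pool.Agent.N634.LF.map, Ph, nrm, eval_add, eval_sub, eval_comp, eval_C, eval_X]
    ring

theorem conj_fun (T : ℂ[X]) (b a : ℂ) (k : ℕ) :
    (Pool.Agent.N634.LF.map (T + C a))^[k] =
      fun y => (Ph (nrm T b) (a + T.eval b - b))^[k] (y - b) + b := by
  funext y
  have h := conj_iter T b a k (y - b)
  rwa [sub_add_cancel] at h

theorem good_conj {T : ℂ[X]} {b a z : ℂ}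
    (h : Pool.Agent.H713R5.QJ.Good (Ph (nrm T b) (a + T.eval b - b)) z) :
    Tendsto (fun k : ℕ => ‖(Pool.Agent.N634.LF.map (T + C a))^[k] (z + b)‖) atTop atTop ∨
      Pool.Agent.N634.LF.Attracted (T + C a) (z + b) := by
  rcases h with h | ⟨P, hP, x, h1, h2, h3⟩
  · left
    have h4 : Tendsto (fun k : ℕ => ‖(Ph (nrm T b) (a + T.eval b - b))^[k] z‖ - ‖b‖) atTop atTop :=
      tendsto_atTop_add_const_right _ _ h
    refine tendsto_atTop_mono (fun k => ?_) h4
    rw [conj_iter]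
    have h5 := norm_sub_norm_le ((Ph (nrm T b) (a + T.eval b - b))^[k] z) (-b)
    rw [norm_neg, sub_neg_eq_add] at h5
    exact h5
  · right
    refine ⟨P, hP, x + b, ?_, ?_, ?_⟩
    · rw [conj_iter, h1]
    · rw [conj_fun, deriv_add_const, deriv_comp_sub_const, add_sub_cancel_right]
      exact h2
    · have h4 := h3.add_const b
      refine h4.congr fun k => ?_
      rw [conj_iter]

/-- the mean square distance of `z` to the critical points of `T` -/
noncomputable def msd (T : ℂ[X]) (z : ℂ) : ℝ :=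
  ((derivative T).roots.map fun c => ‖z - c‖ ^ 2).sum / ((T.natDegree : ℝ) - 1)

theorem exists_cl {q : ℝ} (h0 : 0 < q) (h1 : q < 1) {T : ℂ[X]} (hT : T.Monic)
    (hN : 2 ≤ T.natDegree)
    (h : ∀ c : ℂ, (derivative T).eval c = 0 → msd T c ≤ q ^ 2) :
    ∃ (n : ℕ) (c : Fin n → ℂ) (b : ℂ) (R₀ σ : ℝ), 1 ≤ n ∧ T.natDegree = n + 1 ∧
      Cl n (nrm T b) c R₀ σ q ∧ ∀ y : ℂ, (derivative T).eval y = 0 → ∃ i, y = c i + b := by
  obtain ⟨n, hn⟩ : ∃ n, T.natDegree = n + 1 := ⟨T.natDegree - 1, by omega⟩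
  have hn1 : 1 ≤ n := by omega
  have hn' : (1 : ℝ) ≤ n := by exact_mod_cast hn1
  have hdeg : (derivative T).natDegree = n := by
    have h2 := natDegree_eq_of_degree_eq_some (degree_derivative (p := T) (by omega))
    omega
  have hlead : (derivative T).leadingCoeff = (n : ℂ) + 1 := by
    rw [leadingCoeff, hdeg, coeff_derivative]
    have h2 : T.coeff (n + 1) = 1 := by
      rw [← hn]
      exact hT
    rw [h2, one_mul]
  have hcard : (derivative T).roots.card = n := by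
    rw [IsAlgClosed.card_roots_eq_natDegree, hdeg]
  -- the critical points as a function on `Fin n`
  obtain ⟨c', hc'⟩ : ∃ c' : Fin n → ℂ, (derivative T).roots = Finset.univ.val.map c' := by
    subst hcard
    refine ⟨fun i => (derivative T).roots.toList.get (i.cast (by simp)), ?_⟩
    rw [← Multiset.coe_toList (derivative T).roots]
    simp only [Fin.univ_val_map]
    congr 1
    apply List.ext_getElem
    · simp
    · intro i h1 h2
      simp <;> rfl
  have hfac : derivative T = C ((n : ℂ) + 1) * ∏ i, (X - C (c' i)) := by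
    have h2 := (IsAlgClosed.splits (derivative T)).eq_prod_roots
    rw [hlead, hc'] at h2
    rw [h2, Multiset.map_map]
    rfl
  have hroot : ∀ y : ℂ, (derivative T).eval y = 0 → ∃ i, y = c' i := by
    intro y hy
    rw [hfac, eval_mul, eval_C, eval_prod, mul_eq_zero] at hy
    rcases hy with hy | hy
    · exact absurd hy (by exact_mod_cast Nat.succ_ne_zero n)
    · rw [Finset.prod_eq_zero_iff] at hy
      obtain ⟨i, -, hi⟩ := hy
      rw [eval_sub, eval_X, eval_C, sub_eq_zero] at hi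
      exact ⟨i, hi⟩
  have hcrit : ∀ i, (derivative T).eval (c' i) = 0 := by
    intro i
    rw [hfac, eval_mul, eval_prod, Finset.prod_eq_zero (Finset.mem_univ i)]
    · rw [mul_zero]
    · rw [eval_sub, eval_X, eval_C, sub_self]
  have hmsd : ∀ i, ∑ j, ‖c' i - c' j‖ ^ 2 ≤ n * q ^ 2 := by
    intro i
    have h2 := h (c' i) (hcrit i)
    rw [msd, hc', Multiset.map_map, hn] at h2
    push_cast at h2
    rw [add_sub_cancel_right, div_le_iff₀ (by linarith)] at h2
    have h3 : (Multiset.map ((fun c => ‖c' i - c‖ ^ 2) ∘ c') Finset.univ.val).sum =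
        ∑ j, ‖c' i - c' j‖ ^ 2 := rfl
    rw [h3] at h2
    linarith
  set b : ℂ := (∑ i, c' i) / n with hb
  set c : Fin n → ℂ := fun i => c' i - b with hc
  have hn0 : (n : ℂ) ≠ 0 := by
    have : n ≠ 0 := by omega
    exact_mod_cast this
  have hcen : ∑ i, c i = 0 := by
    rw [hc]
    simp only [Finset.sum_sub_distrib, Finset.sum_const, Finset.card_univ, Fintype.card_fin,
      nsmul_eq_mul]
    rw [hb]
    field_simp
    ring
  set σ : ℝ := (∑ i, ‖c i‖ ^ 2) / n with hσ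
  have hsig : ∑ i, ‖c i‖ ^ 2 = n * σ := by
    rw [hσ]
    field_simp
  have hle2 : ∀ i, ‖c i‖ ^ 2 + σ ≤ q ^ 2 := by
    intro i
    have h2 := sum_sq c hcen (c i)
    have h3 : ∑ j, ‖c i - c j‖ ^ 2 = ∑ j, ‖c' i - c' j‖ ^ 2 := by
      apply Finset.sum_congr rfl
      intro j _
      rw [hc]
      congr 2
      ring
    rw [h3, hsig] at h2
    have h4 := hmsd i
    rw [h2] at h4
    have h5 : (n : ℝ) * (‖c i‖ ^ 2 + σ) ≤ n * q ^ 2 := by linarith
    exact le_of_mul_le_mul_left h5 (by linarith)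
  have hnonneg : 0 ≤ q ^ 2 - σ := by
    have h2 := hle2 ⟨0, by omega⟩
    have h3 := sq_nonneg ‖c ⟨0, by omega⟩‖
    linarith
  refine ⟨n, c, b, Real.sqrt (q ^ 2 - σ), σ, hn1, hn, ?_, ?_⟩
  · refine ⟨?_, ?_, hcen, hsig, ?_, Real.sqrt_nonneg _, ?_, h0, h1⟩
    · rw [nrm, derivative_sub, derivative_comp, derivative_C, sub_zero, derivative_X_add_C, one_mul,
        hfac, mul_comp, C_comp, prod_comp]
      congr 1
      apply Finset.prod_congr rfl
      intro i _
      rw [sub_comp, X_comp, C_comp, hc, C_sub]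
      ring
    · rw [nrm, eval_sub, eval_comp, eval_add, eval_X, eval_C, eval_C, zero_add, sub_self]
    · intro i
      apply Real.le_sqrt_of_sq_le
      have := hle2 i
      linarith
    · rw [Real.sq_sqrt hnonneg]
      linarith
  · intro y hy
    obtain ⟨i, hi⟩ := hroot y hy
    refine ⟨i, ?_⟩
    rw [hc, hi]
    ring

/-- **The main theorem.** -/
theorem main {q : ℝ} (h0 : 0 < q) (h1 : q < 1) : ∃ K : ℝ, 0 < K ∧
    ∀ T : ℂ[X], T.Monic → 2 ≤ T.natDegree →
      (∀ c : ℂ, (derivative T).eval c = 0 → msd T c ≤ q ^ 2) →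
      volume {a : ℂ | ¬ Pool.Agent.N634.LF.Hyperbolic (T + C a)} ≤
        ENNReal.ofReal (K * (Real.log T.natDegree / T.natDegree)) ∧
      ∀ a : ℂ, ∃ t : ℂ, ‖t‖ ≤ K * (Real.log T.natDegree / T.natDegree) ∧
        Pool.Agent.N634.LF.Hyperbolic (T + C (a + t)) := by
  obtain ⟨K, hK, H⟩ := norm_main h0 h1
  refine ⟨K, hK, ?_⟩
  intro T hT hN h
  obtain ⟨n, c, b, R₀, σ, hn, hdeg, hcl, hcrit⟩ := exists_cl h0 h1 hT hN h
  obtain ⟨H1, H2⟩ := H n (nrm T b) c R₀ σ hn hcl
  have hhyp : ∀ a : ℂ, (∀ i, Pool.Agent.H713R5.QJ.Good (Ph (nrm T b) (a + T.eval b - b)) (c i)) →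
      Pool.Agent.N634.LF.Hyperbolic (T + C a) := by
    intro a ha y hy
    have h2 : (derivative T).eval y = 0 := by
      rwa [derivative_add, derivative_C, add_zero] at hy
    obtain ⟨i, rfl⟩ := hcrit y h2
    exact good_conj (ha i)
  have hcast : (T.natDegree : ℝ) = (n : ℝ) + 1 := by
    rw [hdeg]
    push_cast
    ring
  rw [hcast]
  constructor
  · have hsub : {a : ℂ | ¬ Pool.Agent.N634.LF.Hyperbolic (T + C a)} ⊆
        (fun a : ℂ => a + (T.eval b - b)) ⁻¹' Bad n (nrm T b) c := by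
      intro a ha hgood
      apply ha
      apply hhyp
      have h3 : a + T.eval b - b = a + (T.eval b - b) := by ring
      rw [h3]
      exact hgood
    refine (measure_mono hsub).trans ?_
    rw [measure_preimage_add_right]
    exact H1
  · intro a
    obtain ⟨d, hd1, hd2⟩ := H2 (a + T.eval b - b)
    refine ⟨d - (a + T.eval b - b), hd1, ?_⟩
    apply hhyp
    have h3 : a + (d - (a + T.eval b - b)) + T.eval b - b = d := by ring
    rw [h3]
    exact hd2

end Pool.Agent.U424.CC
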